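import Pool.Agent.H80.Q.Pro

set_option autoImplicit false

/-! # Designated primes (helper80) -/

namespace Pool.Agent.H80.Pk

open Finset Filter Pool.Agent.H318R2.Cr Pool.Agent.H361R2.PA TH415.AP Pool.Agent.H398R2.RK

open scoped Classical

theorem primes_many (d₁ d₂ X u₂ u₃ u₄ y w : ℝ) (k v Y : ℕ) (hk : 2 ≤ k)
    (H : Sz 2000 k d₁ d₂ X u₂ u₃ u₄ y w v Y) (hu : u₂ = Real.log (Real.log X)) :
    Real.log X / u₂ / 40 ≤ (((Ioc Y ⌊Real.log X / 10⌋₊).filter Nat.Prime).card : ℝ) := by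
  set L1 := Real.log X with hL1
  set Z := ⌊L1 / 10⌋₊ with hZ
  have h4 := H.hK4
  have h43 := H.h43
  have h32 := H.h32
  have hu₂0 : 2000 ≤ u₂ := by linarith
  have hLu : 2000 * u₂ ≤ L1 := by
    have := H.h2k 1 (by omega)
    rwa [pow_one] at this
  have hL0 : 4000000 ≤ L1 := by linarith
  have hlog : Real.log (L1 / 10) ≤ u₂ := by
    rw [hu]
    apply Real.log_le_log (by linarith) (by linarith)
  have hlog0 : 0 < Real.log (L1 / 10) := Real.log_pos (by linarith)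
  have h1 := Chebyshev.pi_ge' (x := L1 / 10) (by linarith)
  have h2 : Real.log (L1 / 10 + 2) ≤ u₂ := by
    rw [hu]
    apply Real.log_le_log (by linarith) (by linarith)
  have h3 : L1 / 20 ≤ (L1 / 10 - 1) * Real.log 2 - Real.log (L1 / 10 + 2) := by
    have := Real.log_two_gt_d9
    nlinarith
  have h5 : L1 / 20 / u₂ ≤ (Nat.primeCounting Z : ℝ) := by
    refine le_trans ?_ h1
    have h6 : 0 ≤ (L1 / 10 - 1) * Real.log 2 - Real.log (L1 / 10 + 2) := by linarith
    gcongr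
  have e1 : (Nat.primeCounting Z : ℝ) = ((Pz Z).card : ℝ) := by
    rw [Nat.primeCounting, Nat.primeCounting', Nat.count_eq_card_filter_range]
    congr 2
    ext p
    simp only [mem_filter, mem_range, mem_Pz]
    constructor
    · rintro ⟨h1, h2⟩; exact ⟨h2, by omega⟩
    · rintro ⟨h1, h2⟩; exact ⟨by omega, h1⟩
  have hY2 : 2 ≤ Y := H.hv2.trans H.hvY
  have e2 : ((Pz Y).card : ℝ) ≤ 10 * (Y : ℝ) / Real.log Y := by
    have := primes_le Y hY2
    have e3 : Pz Y = (Icc 1 Y).filter Nat.Prime := by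
      unfold Pz
      rfl
    rw [e3]
    exact this
  have hYle : (Y : ℝ) ≤ L1 / u₂ := by
    rw [H.hY, H.hy]
    exact Nat.floor_le (by positivity)
  have e4 : 10 * (Y : ℝ) / Real.log Y ≤ 10 * (L1 / u₂) / (u₂ / 4) := by
    have := H.hlY
    gcongr
  have e5 : 10 * (L1 / u₂) / (u₂ / 4) ≤ L1 / u₂ / 40 := by
    rw [div_le_iff₀ (by positivity)]
    have : 0 ≤ L1 / u₂ := by positivity
    nlinarith
  have e6 : Pz Z ⊆ Pz Y ∪ (Ioc Y Z).filter Nat.Prime := by
    intro p hp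
    rw [mem_Pz] at hp
    rw [mem_union, mem_Pz, mem_filter, mem_Ioc]
    by_cases h : p ≤ Y
    · exact Or.inl ⟨hp.1, h⟩
    · exact Or.inr ⟨⟨by omega, hp.2⟩, hp.1⟩
  have e7 : ((Pz Z).card : ℝ) ≤ (Pz Y).card + ((Ioc Y Z).filter Nat.Prime).card := by
    exact_mod_cast (card_le_card e6).trans (card_union_le _ _)
  have e8 : L1 / 20 / u₂ = L1 / u₂ / 20 := by ring
  rw [e8] at h5
  linarith

/-- changing the classes of the primes in `(Y, Z]` -/
theorem designate (Y Z k : ℕ) (hYZ : Y ≤ Z) (b : ℕ → ℤ) (T : Finset ℤ)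
    (hT : T.card * k ≤ ((Ioc Y Z).filter Nat.Prime).card) :
    ∃ b' : ℕ → ℤ, (∀ m, hits (Pz Y) b m ≤ hits (Pz Z) b' m) ∧ ∀ m ∈ T, k ≤ hits (Pz Z) b' m := by
  set P := (Ioc Y Z).filter Nat.Prime with hP
  have hcard : Fintype.card (T × Fin k) ≤ Fintype.card P := by
    rw [Fintype.card_prod, Fintype.card_coe, Fintype.card_fin, Fintype.card_coe]
    exact hT
  obtain ⟨f⟩ := Function.Embedding.nonempty_of_card_le hcard
  set b' : ℕ → ℤ := fun p => if p ≤ Y then b p else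
    if h : ∃ x : T × Fin k, ((f x : P) : ℕ) = p then ((h.choose.1 : T) : ℤ) else 0 with hb'
  refine ⟨b', fun m => ?_, fun m hm => ?_⟩
  · unfold hits
    apply card_le_card
    intro p hp
    rw [mem_filter, mem_Pz] at hp ⊢
    refine ⟨⟨hp.1.1, hp.1.2.trans hYZ⟩, ?_⟩
    rw [hb']
    simp only [if_pos hp.1.2]
    exact hp.2
  · have h1 : (univ.image (fun i : Fin k => ((f (⟨m, hm⟩, i) : P) : ℕ))).card = k := by
      rw [card_image_of_injective, card_univ, Fintype.card_fin]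
      intro i j hij
      have h2 := f.injective (Subtype.ext hij)
      exact (Prod.ext_iff.1 h2).2
    rw [← h1]
    unfold hits
    apply card_le_card
    intro p hp
    rw [mem_image] at hp
    obtain ⟨i, -, hi⟩ := hp
    have h2' : (f (⟨m, hm⟩, i) : P).1 ∈ (Ioc Y Z).filter Nat.Prime := (f (⟨m, hm⟩, i) : P).2
    have h2 : p ∈ (Ioc Y Z).filter Nat.Prime := hi ▸ h2'
    rw [mem_filter, mem_Ioc] at h2
    rw [mem_filter, mem_Pz]
    refine ⟨⟨h2.2, h2.1.2⟩, ?_⟩
    have h3 : ∃ x : T × Fin k, ((f x : P) : ℕ) = p := ⟨(⟨m, hm⟩, i), hi⟩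
    have h4 : b' p = ((h3.choose.1 : T) : ℤ) := by
      rw [hb']
      simp only [if_neg (not_le.2 h2.1.1)]
      rw [dif_pos h3]
    have h5 : h3.choose = (⟨m, hm⟩, i) :=
      f.injective (Subtype.ext (h3.choose_spec.trans hi.symm))
    rw [h4, h5]
    simp

end Pool.Agent.H80.Pk
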