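import Pool.Agent.H80.Q.PASc2

set_option autoImplicit false
set_option maxHeartbeats 4000000

/-! # The weighted presieve: one choice of classes for several weighted sets of points -/

namespace TH415.AP

open Finset Pool.Agent.H318R2.Cr

open scoped Classical

/-- number of primes of `S` whose class `b p` contains `k` -/
noncomputable def hits (S : Finset ℕ) (b : ℕ → ℤ) (k : ℤ) : ℕ :=
  (S.filter (fun p : ℕ => (p : ℤ) ∣ k - b p)).card

theorem sum_res (p : ℕ) (hp : 0 < p) (k : ℤ) (t : ℝ) :
    ∑ r ∈ range p, (if (p : ℤ) ∣ k - (r : ℤ) then t else 1) = (p : ℝ) * (1 - (1 - t) / p) := by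
  have hp' : (0 : ℤ) < p := by exact_mod_cast hp
  have hp0 : (p : ℝ) ≠ 0 := by exact_mod_cast hp.ne'
  set s : ℕ := (k % (p : ℤ)).toNat with hs
  have h1 := Int.emod_lt_of_pos k hp'
  have h2 := Int.emod_nonneg k hp'.ne'
  have hsp : s < p := by omega
  have hs' : (s : ℤ) = k % (p : ℤ) := Int.toNat_of_nonneg h2
  have h3 : ∀ r ∈ range p, (if (p : ℤ) ∣ k - (r : ℤ) then t else (1 : ℝ)) =
      1 + (if r = s then t - 1 else 0) := by
    intro r hr
    rw [mem_range] at hr
    have h4 : ((p : ℤ) ∣ k - (r : ℤ)) ↔ r = s := by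
      constructor
      · intro h
        have h5 : k % (p : ℤ) = (r : ℤ) % (p : ℤ) :=
          Int.emod_eq_emod_iff_emod_sub_eq_zero.2 (Int.emod_eq_zero_of_dvd h)
        have h6 : (r : ℤ) % (p : ℤ) = r := Int.emod_eq_of_lt (by omega) (by exact_mod_cast hr)
        omega
      · intro h
        rw [h, hs']
        exact Int.dvd_self_sub_emod
    by_cases h5 : r = s
    · rw [if_pos (h4.2 h5), if_pos h5]; ring
    · rw [if_neg (fun h => h5 (h4.1 h)), if_neg h5]; ring
  rw [sum_congr rfl h3, sum_add_distrib, sum_const, card_range, sum_ite_eq' (range p) s,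
    if_pos (mem_range.2 hsp)]
  field_simp
  simp
  ring

/-- averaging over the classes, prime by prime -/
theorem wsieve {ι : Type*} (I : Finset ι) (k : ι → ℤ) (t : ι → ℝ) (ht : ∀ i ∈ I, 0 ≤ t i)
    (S : Finset ℕ) (hS : ∀ p ∈ S, p.Prime) : ∀ W : ι → ℝ, (∀ i ∈ I, 0 ≤ W i) →
    ∃ b : ℕ → ℤ, ∑ i ∈ I, W i * (t i) ^ (hits S b (k i)) ≤
      ∑ i ∈ I, W i * ∏ p ∈ S, (1 - (1 - t i) / (p : ℝ)) := by
  induction S using Finset.induction_on with
  | empty => intro W _; exact ⟨fun _ => 0, by simp [hits]⟩
  | insert p S hpS ih =>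
    intro W hW
    have hp := hS p (mem_insert_self _ _)
    have hp0 : (0 : ℝ) < p := by exact_mod_cast hp.pos
    have hS' : ∀ q ∈ S, q.Prime := fun q hq => hS q (mem_insert_of_mem hq)
    have hpos : ∀ i ∈ I, ∀ q : ℕ, q.Prime → 0 ≤ 1 - (1 - t i) / (q : ℝ) := by
      intro i hi q hq
      have hq0 : (0 : ℝ) < q := by exact_mod_cast hq.pos
      have hq1 : (1 : ℝ) ≤ q := by exact_mod_cast hq.one_le
      have := ht i hi
      rw [sub_nonneg, div_le_one hq0]
      linarith
    set P : ι → ℝ := fun i => ∏ q ∈ S, (1 - (1 - t i) / (q : ℝ)) with hP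
    have hPn : ∀ i ∈ I, 0 ≤ P i := fun i hi => prod_nonneg fun q hq => hpos i hi q (hS' q hq)
    -- average over the class modulo p
    have hav : ∃ c ∈ range p, ∑ i ∈ I, W i * P i * (if (p : ℤ) ∣ k i - (c : ℤ) then t i else 1) ≤
        ∑ i ∈ I, W i * P i * (1 - (1 - t i) / (p : ℝ)) := by
      apply exists_le_of_sum_le ⟨0, mem_range.2 hp.pos⟩
      rw [sum_comm, sum_const, card_range, nsmul_eq_mul, mul_sum]
      apply le_of_eq
      apply sum_congr rfl
      intro i _
      rw [← mul_sum, sum_res p hp.pos]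
      ring
    obtain ⟨c, _, hc⟩ := hav
    obtain ⟨b, hb⟩ := ih hS' (fun i => W i * (if (p : ℤ) ∣ k i - (c : ℤ) then t i else 1))
      (by
        intro i hi
        apply mul_nonneg (hW i hi)
        split_ifs
        · exact ht i hi
        · exact zero_le_one)
    refine ⟨Function.update b p c, ?_⟩
    have h1 : ∀ i ∈ I, W i * (t i) ^ (hits (insert p S) (Function.update b p c) (k i)) =
        W i * (if (p : ℤ) ∣ k i - (c : ℤ) then t i else 1) * (t i) ^ (hits S b (k i)) := by
      intro i _
      have h2 : S.filter (fun q : ℕ => (q : ℤ) ∣ k i - Function.update b p (c : ℤ) q) =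
          S.filter (fun q : ℕ => (q : ℤ) ∣ k i - b q) := by
        apply filter_congr
        intro q hq
        have h9 : q ≠ p := fun h => hpS (h ▸ hq)
        rw [Function.update_of_ne h9]
      unfold hits
      rw [filter_insert, Function.update_self, h2]
      split_ifs with h
      · rw [card_insert_of_notMem (by simp [hpS]), pow_succ]
        ring
      · ring
    rw [sum_congr rfl h1]
    refine hb.trans ?_
    refine le_trans (le_of_eq ?_) (hc.trans (le_of_eq ?_))
    · apply sum_congr rfl
      intro i _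
      simp only [hP]
      ring
    · apply sum_congr rfl
      intro i _
      rw [prod_insert hpS]
      simp only [hP]
      ring

end TH415.AP
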