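import Pool.Agent.H80.Q.Des

set_option autoImplicit false

/-! # The profile function (helper80) -/

namespace Pool.Agent.H80.Pk

/-- the profile -/
noncomputable def pf (u₂ u₃ u₄ : ℝ) (h : ℕ) : ℝ :=
  if h = 0 then u₃ ^ 2 / (u₂ ^ 2 * u₄) else u₃ ^ (h - 1) / u₂

end Pool.Agent.H80.Pk
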