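import Pool.Agent.H80.Q.Cnt

set_option autoImplicit false

/-! # The profile of the numbers of hits (helper80) -/

namespace Pool.Agent.H80.Pk

open Finset Filter Pool.Agent.H318R2.Cr Pool.Agent.H361R2.PA TH415.AP

open scoped Classical

theorem hits_split (v Y : ℕ) (hvY : v ≤ Y) (b : ℕ → ℤ) (m : ℤ) :
    hits (Pz Y) (fun p => if p ≤ v then b p else 0) m =
      hits (Pz v) b m + hits (MM v Y) (fun _ => 0) m := by
  unfold hits MM
  rw [← card_union_of_disjoint]
  · congr 1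
    ext p
    simp only [mem_filter, mem_union, mem_Pz, mem_Ioc]
    constructor
    · rintro ⟨⟨h1, h2⟩, h3⟩
      by_cases h : p ≤ v
      · left
        rw [if_pos h] at h3
        exact ⟨⟨h1, h⟩, h3⟩
      · right
        rw [if_neg h] at h3
        exact ⟨⟨⟨by omega, h2⟩, h1⟩, h3⟩
    · rintro (⟨⟨h1, h2⟩, h3⟩ | ⟨⟨⟨h1, h2⟩, h3⟩, h4⟩)
      · rw [if_pos h2]
        exact ⟨⟨h1, h2.trans hvY⟩, h3⟩
      · rw [if_neg (by omega)]
        exact ⟨⟨h3, h2⟩, h4⟩
  · rw [disjoint_left]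
    intro p h1 h2
    simp only [mem_filter, mem_Pz, mem_Ioc] at h1 h2
    omega

theorem profile (k M : ℕ) (hk : 2 ≤ k) : ∃ C : ℝ, 0 < C ∧ ∃ X₀ : ℝ, ∀ X : ℝ, X₀ ≤ X →
    ∀ 𝒩 : Finset ℕ, 𝒩.card ≤ M →
    (∀ N ∈ 𝒩, Real.log X / Real.log (Real.log X) ≤ N ∧
      (N : ℝ) ≤ Real.log X * (Real.log (Real.log X)) ^ 2) →
    ∃ b : ℕ → ℤ, ∀ N ∈ 𝒩,
      (((Icc (-(N : ℤ)) (N : ℤ)).filter (fun m =>
        hits (Pz ⌊Real.log X / Real.log (Real.log X)⌋₊) b m ≤ 0)).card : ℝ) ≤
        C * N * (Real.log (Real.log (Real.log X)) ^ 2 / ((Real.log (Real.log X)) ^ 2 *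
          Real.log (Real.log (Real.log (Real.log X))))) ∧
      ∀ h : ℕ, 1 ≤ h → h ≤ k →
        (((Icc (-(N : ℤ)) (N : ℤ)).filter (fun m =>
          hits (Pz ⌊Real.log X / Real.log (Real.log X)⌋₊) b m ≤ h)).card : ℝ) ≤
          C * N * (Real.log (Real.log (Real.log X)) ^ (h - 1) / Real.log (Real.log X)) := by
  obtain ⟨d₁, d₂, hd₁, hd₁₂, hVV⟩ := cz_bounds
  have hd₂ : 0 < d₂ := hd₁.trans_le hd₁₂
  obtain ⟨C, hC, K, hcnt⟩ := cnt k hk d₁ d₂ hd₁ hd₁₂ hVV
  obtain ⟨X₀, hsz⟩ := sizes (|K| + 10) (2 * k) (by omega) d₁ d₂ hd₁ hd₁₂ hVV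
  set G : ℝ := (M : ℝ) * (k + 1) * Real.exp 4 with hG
  have hG0 : 0 ≤ G := by positivity
  refine ⟨(k + 1) * (G * (80 * d₂ * C)) + 1, by positivity, X₀, fun X hX 𝒩 hM hN => ?_⟩
  have H := hsz X hX
  set L1 := Real.log X with hL1
  set u₂ := Real.log L1 with hu₂
  set u₃ := Real.log u₂ with hu₃
  set u₄ := Real.log u₃ with hu₄
  set y := L1 / u₂ with hy
  set w := WW y with hw
  set v := ⌊Real.exp w⌋₊ with hv
  set Y := ⌊y⌋₊ with hY
  have hKa := abs_nonneg K
  have H' : Sz K (2 * k) d₁ d₂ X u₂ u₃ u₄ y w v Y := by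
    have hh := le_abs_self K
    have h41 := H.h41
    have h43 := H.h43
    have h32 := H.h32
    refine
      { hX := H.hX
        hK4 := by have := H.hK4; linarith
        h41 := H.h41
        h43 := H.h43
        h32 := H.h32
        h4k := fun j hj => le_trans (mul_le_mul_of_nonneg_right (by linarith) (by positivity))
          (H.h4k j hj)
        h3k := fun j hj => le_trans (mul_le_mul_of_nonneg_right (by linarith) (by
          have : 0 < u₃ := by linarith
          positivity)) (H.h3k j hj)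
        h2k := fun j hj => le_trans (mul_le_mul_of_nonneg_right (by linarith) (by
          have : 0 < u₂ := by linarith
          positivity)) (H.h2k j hj)
        hy := H.hy
        hKy := by have := H.hKy; linarith
        hly1 := H.hly1
        hly2 := H.hly2
        hlly := H.hlly
        hlly0 := H.hlly0
        hw := H.hw
        hw10 := H.hw10
        hwy := H.hwy
        hw1 := H.hw1
        hw2 := H.hw2
        hv := H.hv
        hY := H.hY
        hv2 := H.hv2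
        hvY := H.hvY
        hlv1 := H.hlv1
        hlv2 := H.hlv2
        hlY := H.hlY
        hVv := H.hVv
        hVw := H.hVw
        hVv' := H.hVv'
        hVlog := H.hVlog
        hVd := H.hVd }
  have h4 := H.h41
  have h43 := H.h43
  have h32 := H.h32
  have hu₄0 : 0 < u₄ := by linarith
  have hu₃0 : 0 < u₃ := by linarith
  have hu₂0 : 0 < u₂ := by linarith
  have hu₃1 : 1 ≤ u₃ := by linarith
  have hw0 : 0 < w := by linarith [H.hw10]
  -- the parameters of the sieve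
  set t : ℝ := 1 / u₃ with ht
  have ht0 : 0 < t := by positivity
  have ht1 : t ≤ 1 := by rw [ht, div_le_one hu₃0]; exact hu₃1
  have hSpr : ∀ p ∈ Pz v, p.Prime := fun p hp => (mem_Pz.1 hp).1
  set Vt := ∏ p ∈ Pz v, (1 - (1 - t) / (p : ℝ)) with hVt
  have hVtle : Vt ≤ V v * Real.exp 4 := by
    have h1 := prod_t (Pz v) hSpr t ht0.le
    have h2 : ∏ p ∈ Pz v, (1 - 1 / (p : ℝ)) = V v := rfl
    rw [h2] at h1
    refine h1.trans ?_
    have h3 : 2 * t * (-Real.log (V v)) ≤ 4 := by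
      calc 2 * t * (-Real.log (V v)) ≤ 2 * t * (2 * u₃) := by
            have := H.hVlog
            gcongr
        _ = 4 := by rw [ht]; field_simp; norm_num
    have h5 := V_pos v
    gcongr
  have hVt0 : 0 ≤ Vt := prod_nonneg fun p hp => by
    have h0 : (0 : ℝ) < p := by exact_mod_cast (hSpr p hp).pos
    have h1 : (1 : ℝ) ≤ p := by exact_mod_cast (hSpr p hp).one_le
    rw [sub_nonneg, div_le_one h0]
    linarith
  set A : ℕ × ℕ → Finset ℤ := fun i => (Icc (-(i.1 : ℤ)) (i.1 : ℤ)).filter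
    (fun m => hits (MM v Y) (fun _ => 0) m ≤ i.2) with hA
  set I : Finset (ℕ × ℕ) := 𝒩 ×ˢ range (k + 1) with hI
  have hIc : (I.card : ℝ) ≤ (M : ℝ) * (k + 1) := by
    rw [hI, card_product, card_range]
    push_cast
    have : (𝒩.card : ℝ) ≤ M := by exact_mod_cast hM
    gcongr
  obtain ⟨b, hb⟩ := multi I A (Pz v) hSpr t ht0
  refine ⟨fun p => if p ≤ v then b p else 0, fun N hNN => ?_⟩
  obtain ⟨hN1, hN2⟩ := hN N hNN
  obtain ⟨c0, c1⟩ := hcnt X u₂ u₃ u₄ y w v Y H' N hN1 hN2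
  have hN0 : (0 : ℝ) ≤ N := Nat.cast_nonneg _
  -- one piece
  have hpiece : ∀ j : ℕ, j ≤ k → ∀ h : ℕ,
      (((A (N, j)).filter (fun m => hits (Pz v) b m ≤ h)).card : ℝ) ≤
        u₃ ^ h * (G * (V v * ((A (N, j)).card : ℝ))) := by
    intro j hj h
    have h1 := (few (A (N, j)) (Pz v) b t ht0 ht1 h).trans
      (hb (N, j) (mem_product.2 ⟨hNN, mem_range.2 (by omega)⟩))
    have h2 : t ^ h = 1 / u₃ ^ h := by rw [ht, one_div, one_div, inv_pow]
    rw [h2, one_div_mul_eq_div, div_le_iff₀ (by positivity)] at h1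
    refine h1.trans ?_
    have h3 : (I.card : ℝ) * Vt * ((A (N, j)).card : ℝ) ≤
        ((M : ℝ) * (k + 1)) * (V v * Real.exp 4) * ((A (N, j)).card : ℝ) := by gcongr
    calc (I.card : ℝ) * Vt * ((A (N, j)).card : ℝ) * u₃ ^ h ≤
        ((M : ℝ) * (k + 1)) * (V v * Real.exp 4) * ((A (N, j)).card : ℝ) * u₃ ^ h := by gcongr
      _ = _ := by rw [hG]; ring
  -- the splitting
  have hsplit : ∀ h : ℕ, h ≤ k → (((Icc (-(N : ℤ)) (N : ℤ)).filter (fun m =>
      hits (Pz Y) (fun p => if p ≤ v then b p else 0) m ≤ h)).card : ℝ) ≤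
      ∑ j ∈ range (h + 1), u₃ ^ (h - j) * (G * (V v * ((A (N, j)).card : ℝ))) := by
    intro h hh
    have h1 : (Icc (-(N : ℤ)) (N : ℤ)).filter (fun m =>
        hits (Pz Y) (fun p => if p ≤ v then b p else 0) m ≤ h) ⊆
        (range (h + 1)).biUnion (fun j => (A (N, j)).filter
          (fun m => hits (Pz v) b m ≤ h - j)) := by
      intro m hm
      rw [mem_filter, hits_split v Y H.hvY] at hm
      rw [mem_biUnion]
      refine ⟨hits (MM v Y) (fun _ => 0) m, mem_range.2 (by omega), ?_⟩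
      rw [mem_filter, hA, mem_filter]
      exact ⟨⟨hm.1, le_rfl⟩, by omega⟩
    have h2 := (card_le_card h1).trans card_biUnion_le
    have h3 : (((Icc (-(N : ℤ)) (N : ℤ)).filter (fun m =>
        hits (Pz Y) (fun p => if p ≤ v then b p else 0) m ≤ h)).card : ℝ) ≤
        ∑ j ∈ range (h + 1), (((A (N, j)).filter
          (fun m => hits (Pz v) b m ≤ h - j)).card : ℝ) := by exact_mod_cast h2
    refine h3.trans (sum_le_sum fun j hj => ?_)
    rw [mem_range] at hj
    exact hpiece j (by omega) (h - j)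
  have hVp := V_pos v
  refine ⟨?_, fun h h1 hhk => ?_⟩
  · refine (hsplit 0 (by omega)).trans ?_
    rw [zero_add, sum_range_one, Nat.sub_zero, pow_zero, one_mul]
    have e1 : V v * ((A (N, 0)).card : ℝ) ≤
        (80 * d₂ * u₃ / (u₂ * u₄)) * (C * N * (u₃ / u₂)) :=
      mul_le_mul H.hVv c0 (Nat.cast_nonneg _) (by positivity)
    have e2 : (80 * d₂ * u₃ / (u₂ * u₄)) * (C * N * (u₃ / u₂)) =
        80 * d₂ * C * (N * (u₃ ^ 2 / (u₂ ^ 2 * u₄))) := by
      field_simp
    rw [e2] at e1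
    set Q := (N : ℝ) * (u₃ ^ 2 / (u₂ ^ 2 * u₄)) with hQ
    have hQ0 : 0 ≤ Q := by positivity
    calc G * (V v * ((A (N, 0)).card : ℝ)) ≤ G * (80 * d₂ * C * Q) := by gcongr
      _ = 1 * (G * (80 * d₂ * C)) * Q := by ring
      _ ≤ ((k : ℝ) + 1) * (G * (80 * d₂ * C)) * Q := by
        have : (0 : ℝ) ≤ k := Nat.cast_nonneg k
        gcongr
        linarith
      _ ≤ ((k : ℝ) + 1) * (G * (80 * d₂ * C)) * Q + 1 * Q := by linarith
      _ = _ := by rw [hQ]; ring
  · refine (hsplit h hhk).trans ?_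
    set Q := (N : ℝ) * (u₃ ^ (h - 1) / u₂) with hQ
    have hQ0 : 0 ≤ Q := by positivity
    have hterm : ∀ j ∈ range (h + 1), u₃ ^ (h - j) * (G * (V v * ((A (N, j)).card : ℝ))) ≤
        G * (80 * d₂ * C) * Q := by
      intro j hj
      rw [mem_range] at hj
      rcases Nat.eq_zero_or_pos j with rfl | hj0
      · have e1 : V v * ((A (N, 0)).card : ℝ) ≤
            (80 * d₂ * u₃ / (u₂ * u₄)) * (C * N * (u₃ / u₂)) :=
          mul_le_mul H.hVv c0 (Nat.cast_nonneg _) (by positivity)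
        have e3 : u₃ ^ 3 ≤ u₂ * u₄ := by
          have q1 := H.h3k 3 (by omega)
          have q2 : u₂ ^ (1 / 12 : ℝ) ≤ u₂ := by
            calc u₂ ^ (1 / 12 : ℝ) ≤ u₂ ^ (1 : ℝ) :=
                  Real.rpow_le_rpow_of_exponent_le (by linarith) (by norm_num)
              _ = u₂ := Real.rpow_one _
          have q3 : 1 * u₃ ^ 3 ≤ (|K| + 10) * u₃ ^ 3 := by gcongr; linarith
          calc u₃ ^ 3 ≤ u₂ := by linarith
            _ = u₂ * 1 := (mul_one _).symm
            _ ≤ u₂ * u₄ := by gcongr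
        have e4 : u₃ ^ h = u₃ ^ (h - 1) * u₃ := by
          rw [← pow_succ]; congr 1; omega
        rw [Nat.sub_zero]
        calc u₃ ^ h * (G * (V v * ((A (N, 0)).card : ℝ))) ≤
            u₃ ^ h * (G * ((80 * d₂ * u₃ / (u₂ * u₄)) * (C * N * (u₃ / u₂)))) := by gcongr
          _ = G * (80 * d₂ * C) * Q * (u₃ ^ 3 / (u₂ * u₄)) := by
            rw [e4, hQ]
            field_simp
          _ ≤ G * (80 * d₂ * C) * Q * 1 := by
            gcongr
            rw [div_le_one (by positivity)]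
            exact e3
          _ = _ := mul_one _
      · have e1 := c1 j hj0 (by omega)
        have e2 : V v * ((A (N, j)).card : ℝ) ≤ V v * (C * N * (w * u₃ ^ (j - 1) / u₂)) := by
          gcongr
        have e3 : V v * (C * N * (w * u₃ ^ (j - 1) / u₂)) =
            (V v * w) * (C * N * (u₃ ^ (j - 1) / u₂)) := by ring
        rw [e3] at e2
        have e4 : (V v * w) * (C * N * (u₃ ^ (j - 1) / u₂)) ≤
            (2 * d₂) * (C * N * (u₃ ^ (j - 1) / u₂)) := by
          have := H.hVw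
          gcongr
        have e5 : u₃ ^ (h - 1) = u₃ ^ (h - j) * u₃ ^ (j - 1) := by
          rw [← pow_add]; congr 1; omega
        calc u₃ ^ (h - j) * (G * (V v * ((A (N, j)).card : ℝ))) ≤
            u₃ ^ (h - j) * (G * ((2 * d₂) * (C * N * (u₃ ^ (j - 1) / u₂)))) := by
              have := e2.trans e4
              gcongr
          _ = G * (2 * d₂ * C) * Q := by rw [hQ, e5]; ring
          _ ≤ G * (80 * d₂ * C) * Q := by gcongr; norm_num
    refine (sum_le_sum hterm).trans ?_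
    rw [sum_const, card_range, nsmul_eq_mul]
    have e6 : ((h + 1 : ℕ) : ℝ) ≤ (k : ℝ) + 1 := by
      push_cast
      have : (h : ℝ) ≤ k := by exact_mod_cast hhk
      linarith
    calc ((h + 1 : ℕ) : ℝ) * (G * (80 * d₂ * C) * Q) ≤
        ((k : ℝ) + 1) * (G * (80 * d₂ * C) * Q) := by gcongr
      _ ≤ ((k : ℝ) + 1) * (G * (80 * d₂ * C) * Q) + 1 * Q := by linarith
      _ = _ := by rw [hQ]; ring

end Pool.Agent.H80.Pk
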