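import Pool.Agent.H80.Q.APWS

set_option autoImplicit false
set_option maxHeartbeats 4000000

/-! # Four simultaneous sets of points -/

namespace TH415.AP

open Finset Pool.Agent.H318R2.Cr

open scoped Classical

theorem zero_pow_sum (A : Finset ℤ) (S : Finset ℕ) (b : ℕ → ℤ) :
    ∑ k ∈ A, (0 : ℝ) ^ (hits S b k) = ((A.filter (fun k => hits S b k = 0)).card : ℝ) := by
  rw [card_filter]
  push_cast
  apply sum_congr rfl
  intro k _
  split_ifs with h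
  · rw [h, pow_zero]
  · exact zero_pow h

theorem four (S : Finset ℕ) (hS : ∀ p ∈ S, p.Prime) (A1 A2 A3 A4 : Finset ℤ)
    (T1 T2 T3 T4 t : ℝ) (hT1 : 0 < T1) (hT2 : 0 < T2) (hT3 : 0 < T3) (hT4 : 0 < T4)
    (ht : 0 < t) (ht1 : t ≤ 1) (V' Vt : ℝ) (hV : V' = ∏ p ∈ S, (1 - 1 / (p : ℝ)))
    (hVt : Vt = ∏ p ∈ S, (1 - (1 - t) / (p : ℝ)))
    (h1 : 4 * (A1.card : ℝ) * V' ≤ T1) (h2 : 4 * (A2.card : ℝ) * V' ≤ T2)
    (h3 : 4 * (A3.card : ℝ) * Vt ≤ T3) (h4 : 4 * (A4.card : ℝ) * V' ≤ T4) :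
    ∃ b : ℕ → ℤ, ((A1.filter (fun k => hits S b k = 0)).card : ℝ) ≤ T1 ∧
      ((A2.filter (fun k => hits S b k = 0)).card : ℝ) ≤ T2 ∧
      t * ((A3.filter (fun k => hits S b k ≤ 1)).card : ℝ) ≤ T3 ∧
      ((A4.filter (fun k => hits S b k = 0)).card : ℝ) ≤ T4 := by
  set I : Finset ((ℤ ⊕ ℤ) ⊕ (ℤ ⊕ ℤ)) := (A1.disjSum A2).disjSum (A3.disjSum A4) with hI
  set kk : (ℤ ⊕ ℤ) ⊕ (ℤ ⊕ ℤ) → ℤ := Sum.elim (Sum.elim id id) (Sum.elim id id) with hkk
  set tt : (ℤ ⊕ ℤ) ⊕ (ℤ ⊕ ℤ) → ℝ := Sum.elim (Sum.elim (fun _ => 0) (fun _ => 0))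
    (Sum.elim (fun _ => t) (fun _ => 0)) with htt
  set W : (ℤ ⊕ ℤ) ⊕ (ℤ ⊕ ℤ) → ℝ := Sum.elim (Sum.elim (fun _ => 1 / T1) (fun _ => 1 / T2))
    (Sum.elim (fun _ => 1 / T3) (fun _ => 1 / T4)) with hW
  have htt0 : ∀ i ∈ I, 0 ≤ tt i := by
    rintro ((i | i) | (i | i)) _ <;> simp [htt, ht.le]
  have hW0 : ∀ i ∈ I, 0 ≤ W i := by
    rintro ((i | i) | (i | i)) _ <;> simp only [hW, Sum.elim_inl, Sum.elim_inr] <;> positivity
  obtain ⟨b, hb⟩ := wsieve I kk tt htt0 S hS W hW0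
  refine ⟨b, ?_⟩
  rw [hI] at hb
  simp only [sum_disjSum, hkk, htt, hW, Sum.elim_inl, Sum.elim_inr, id] at hb
  rw [← mul_sum, ← mul_sum, ← mul_sum, ← mul_sum, zero_pow_sum, zero_pow_sum, zero_pow_sum] at hb
  simp only [sub_zero, sum_const, nsmul_eq_mul] at hb
  rw [← hV, ← hVt] at hb
  -- the one-hit channel
  have ht3 : t * ((A3.filter (fun k => hits S b k ≤ 1)).card : ℝ) ≤
      ∑ k ∈ A3, t ^ (hits S b k) := by
    have e1 : t * ((A3.filter (fun k => hits S b k ≤ 1)).card : ℝ) =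
        ∑ k ∈ A3.filter (fun k => hits S b k ≤ 1), t := by
      rw [sum_const, nsmul_eq_mul]; ring
    rw [e1]
    calc ∑ k ∈ A3.filter (fun k => hits S b k ≤ 1), t ≤
        ∑ k ∈ A3.filter (fun k => hits S b k ≤ 1), t ^ (hits S b k) := by
          apply sum_le_sum
          intro k hk
          rw [mem_filter] at hk
          have h5 : hits S b k = 0 ∨ hits S b k = 1 := by omega
          rcases h5 with h5 | h5
          · rw [h5, pow_zero]; exact ht1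
          · rw [h5, pow_one]
      _ ≤ _ := by
          apply sum_le_sum_of_subset_of_nonneg (filter_subset _ _)
          intro k _ _
          positivity
  set N1 := ((A1.filter (fun k => hits S b k = 0)).card : ℝ) with hN1
  set N2 := ((A2.filter (fun k => hits S b k = 0)).card : ℝ) with hN2
  set N4 := ((A4.filter (fun k => hits S b k = 0)).card : ℝ) with hN4
  set N3 := ∑ k ∈ A3, t ^ (hits S b k) with hN3
  have hN1' : 0 ≤ N1 := by positivity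
  have hN2' : 0 ≤ N2 := by positivity
  have hN3' : 0 ≤ N3 := sum_nonneg fun k _ => by positivity
  have hN4' : 0 ≤ N4 := by positivity
  have q1 : (A1.card : ℝ) * (1 / T1 * V') ≤ 1 / 4 := by
    rw [show (A1.card : ℝ) * (1 / T1 * V') = (A1.card * V') / T1 by ring, div_le_iff₀ hT1]
    linarith
  have q2 : (A2.card : ℝ) * (1 / T2 * V') ≤ 1 / 4 := by
    rw [show (A2.card : ℝ) * (1 / T2 * V') = (A2.card * V') / T2 by ring, div_le_iff₀ hT2]
    linarith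
  have q3 : (A3.card : ℝ) * (1 / T3 * Vt) ≤ 1 / 4 := by
    rw [show (A3.card : ℝ) * (1 / T3 * Vt) = (A3.card * Vt) / T3 by ring, div_le_iff₀ hT3]
    linarith
  have q4 : (A4.card : ℝ) * (1 / T4 * V') ≤ 1 / 4 := by
    rw [show (A4.card : ℝ) * (1 / T4 * V') = (A4.card * V') / T4 by ring, div_le_iff₀ hT4]
    linarith
  have r1 : 0 ≤ 1 / T1 * N1 := by positivity
  have r2 : 0 ≤ 1 / T2 * N2 := by positivity
  have r3 : 0 ≤ 1 / T3 * N3 := by positivity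
  have r4 : 0 ≤ 1 / T4 * N4 := by positivity
  have s1 : 1 / T1 * N1 ≤ 1 := by linarith
  have s2 : 1 / T2 * N2 ≤ 1 := by linarith
  have s3 : 1 / T3 * N3 ≤ 1 := by linarith
  have s4 : 1 / T4 * N4 ≤ 1 := by linarith
  rw [one_div, inv_mul_le_iff₀ hT1, mul_one] at s1
  rw [one_div, inv_mul_le_iff₀ hT2, mul_one] at s2
  rw [one_div, inv_mul_le_iff₀ hT3, mul_one] at s3
  rw [one_div, inv_mul_le_iff₀ hT4, mul_one] at s4
  exact ⟨s1, s2, ht3.trans s3, s4⟩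

/-- the product for the one-hit channel -/
theorem prod_t (S : Finset ℕ) (hS : ∀ p ∈ S, p.Prime) (t : ℝ) (ht : 0 ≤ t) :
    ∏ p ∈ S, (1 - (1 - t) / (p : ℝ)) ≤ (∏ p ∈ S, (1 - 1 / (p : ℝ))) *
      Real.exp (2 * t * (-Real.log (∏ p ∈ S, (1 - 1 / (p : ℝ))))) := by
  have hpos : ∀ p ∈ S, (0 : ℝ) < 1 - 1 / (p : ℝ) := fun p hp => one_sub_inv_pos (hS p hp)
  rw [Real.log_prod (fun p hp => (hpos p hp).ne')]
  rw [show 2 * t * (-∑ p ∈ S, Real.log (1 - 1 / (p : ℝ))) =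
    ∑ p ∈ S, 2 * t * (-Real.log (1 - 1 / (p : ℝ))) by
      rw [← sum_neg_distrib, mul_sum], Real.exp_sum, ← prod_mul_distrib]
  apply prod_le_prod
  · intro p hp
    have h0 : (0 : ℝ) < p := by exact_mod_cast (hS p hp).pos
    have h1 : (1 : ℝ) ≤ p := by exact_mod_cast (hS p hp).one_le
    rw [sub_nonneg, div_le_one h0]
    linarith
  · intro p hp
    have h0 : (0 : ℝ) < p := by exact_mod_cast (hS p hp).pos
    have h2 : (2 : ℝ) ≤ p := by exact_mod_cast (hS p hp).two_le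
    have hx := hpos p hp
    have h3 : 1 / (p : ℝ) ≤ -Real.log (1 - 1 / (p : ℝ)) := by
      have := Real.log_le_sub_one_of_pos hx
      linarith
    have h4 : 1 + 2 * t * (1 / (p : ℝ)) ≤ Real.exp (2 * t * (-Real.log (1 - 1 / (p : ℝ)))) := by
      have h5 := Real.add_one_le_exp (2 * t * (-Real.log (1 - 1 / (p : ℝ))))
      have h6 : 2 * t * (1 / (p : ℝ)) ≤ 2 * t * (-Real.log (1 - 1 / (p : ℝ))) := by gcongr
      linarith
    refine le_trans ?_ (mul_le_mul_of_nonneg_left h4 hx.le)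
    have h7 : 1 / (p : ℝ) ≤ 1 / 2 := one_div_le_one_div_of_le (by norm_num) h2
    have h8 : (1 - t) / (p : ℝ) = 1 / p - t * (1 / p) := by ring
    rw [h8]
    have h9 : 0 ≤ 1 / (p : ℝ) := by positivity
    have h10 : 0 ≤ t * (1 / (p : ℝ)) := by positivity
    nlinarith

end TH415.AP
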