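import Pool.Agent.H80.Q.APOne

set_option autoImplicit false
set_option maxHeartbeats 4000000

/-! # Numerical facts -/

namespace TH415.AP

open Finset Filter

/-- powers of `log log log X` against `(log log X)^(1/4)` -/
theorem ev_num (K : ℝ) : ∃ X₀ : ℝ, ∀ X : ℝ, X₀ ≤ X →
    1 ≤ Real.log (Real.log X) ∧ K ≤ Real.log (Real.log (Real.log X)) ∧
    K * Real.log (Real.log (Real.log X)) ^ 3 ≤ Real.log (Real.log X) ^ (1 / 4 : ℝ) := by
  have h1 : ∀ᶠ s : ℝ in atTop, K * Real.log s ^ 3 ≤ s ^ (1 / 4 : ℝ) := by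
    have a1 := isLittleO_log_rpow_rpow_atTop (3 : ℝ) (show (0 : ℝ) < 1 / 4 by norm_num)
    have a2 := a1.bound (show (0 : ℝ) < 1 / (|K| + 1) by positivity)
    filter_upwards [a2, eventually_ge_atTop (1 : ℝ)] with s hs hs1
    have hs0 : 0 < s := by linarith
    have hl : 0 ≤ Real.log s := Real.log_nonneg hs1
    have e1 : Real.log s ^ (3 : ℝ) = Real.log s ^ 3 := by
      rw [← Real.rpow_natCast]; norm_num
    rw [e1, Real.norm_of_nonneg (by positivity), Real.norm_of_nonneg (by positivity),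
      one_div_mul_eq_div, le_div_iff₀ (by positivity)] at hs
    have h3 : K ≤ |K| + 1 := (le_abs_self K).trans (by linarith)
    calc K * Real.log s ^ 3 ≤ (|K| + 1) * Real.log s ^ 3 := by gcongr
      _ = Real.log s ^ 3 * (|K| + 1) := by ring
      _ ≤ _ := hs
  have h2 : ∀ᶠ s : ℝ in atTop, K ≤ Real.log s := Real.tendsto_log_atTop.eventually_ge_atTop K
  have h3 : ∀ᶠ s : ℝ in atTop, 1 ≤ s ∧ K ≤ Real.log s ∧ K * Real.log s ^ 3 ≤ s ^ (1 / 4 : ℝ) := by
    filter_upwards [h1, h2, eventually_ge_atTop (1 : ℝ)] with s a b c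
    exact ⟨c, b, a⟩
  have h4 := (Real.tendsto_log_atTop.comp Real.tendsto_log_atTop).eventually h3
  obtain ⟨X₀, hX₀⟩ := eventually_atTop.1 h4
  exact ⟨X₀, fun X hX => hX₀ X hX⟩

end TH415.AP
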