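import Pool.Agent.H80.Q.PASc2

set_option autoImplicit false
set_option maxHeartbeats 4000000

/-! # Integers with at most one medium prime factor -/

namespace TH415.AP

open Finset Filter Pool.Agent.H318R2.Cr Pool.Agent.H398R2.RK Pool.Agent.H361R2.PA

open scoped Classical

/-- the `m ≤ L` with at most one prime factor in `(exp (WW y), y]` -/
noncomputable def OM (y : ℝ) (L : ℕ) : Finset ℕ :=
  (Icc 1 L).filter (fun m => ∃ q : ℕ, ∀ p : ℕ, p.Prime → p ∣ m → (p : ℝ) ≤ y →
    WW y < Real.log p → p = q)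

/-- the size of `WW` -/
theorem WW_big : ∃ y₀ : ℝ, ∀ y : ℝ, y₀ ≤ y → 1 ≤ y ∧ Real.exp 1 ≤ Real.log y ∧
    1 ≤ Real.log (Real.log y) ∧ 4 * Real.log (Real.log y) + 6 ≤ WW y := by
  have h1 : ∀ᶠ s : ℝ in atTop, 10 * Real.log s * (4 * Real.log s + 6) ≤ s := by
    have a1 : (fun x : ℝ => Real.log x ^ 2) =o[atTop] (id : ℝ → ℝ) := Real.isLittleO_pow_log_id_atTop
    have a2 := a1.bound (show (0 : ℝ) < 1 / 100 by norm_num)
    filter_upwards [a2, eventually_ge_atTop (Real.exp 1)] with s hs hs1
    have hs0 : 0 < s := (Real.exp_pos 1).trans_le hs1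
    rw [id, Real.norm_of_nonneg (sq_nonneg _), Real.norm_of_nonneg hs0.le] at hs
    have hl : 1 ≤ Real.log s := by
      rw [← Real.log_exp 1]; exact Real.log_le_log (Real.exp_pos _) hs1
    nlinarith
  obtain ⟨s₀, hs₀⟩ := eventually_atTop.1 h1
  refine ⟨Real.exp (max s₀ (Real.exp (Real.exp 1))), fun y hy => ?_⟩
  have hy0 : 0 < y := (Real.exp_pos _).trans_le hy
  have hly : max s₀ (Real.exp (Real.exp 1)) ≤ Real.log y := by
    rw [← Real.log_exp (max s₀ (Real.exp (Real.exp 1)))]
    exact Real.log_le_log (Real.exp_pos _) hy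
  have hs1 : s₀ ≤ Real.log y := (le_max_left _ _).trans hly
  have hs2 : Real.exp (Real.exp 1) ≤ Real.log y := (le_max_right _ _).trans hly
  have he1 : (1 : ℝ) ≤ Real.exp 1 := Real.one_le_exp (by norm_num)
  have hll : Real.exp 1 ≤ Real.log (Real.log y) := by
    rw [← Real.log_exp (Real.exp 1)]
    exact Real.log_le_log (Real.exp_pos _) hs2
  have hlll : 1 ≤ Real.log (Real.log (Real.log y)) := by
    rw [← Real.log_exp 1]
    exact Real.log_le_log (Real.exp_pos _) hll
  have hlyp : 0 < Real.log y := (Real.exp_pos _).trans_le hs2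
  have hllp : 0 < Real.log (Real.log y) := (Real.exp_pos _).trans_le hll
  have hy1 : 1 ≤ y := by
    refine le_trans ?_ hy
    apply Real.one_le_exp
    exact (Real.exp_pos _).le.trans (le_max_right _ _)
  refine ⟨hy1, ?_, by linarith, ?_⟩
  · have : Real.exp 1 ≤ Real.exp (Real.exp 1) := Real.exp_le_exp.2 he1
    linarith
  · unfold WW
    have h2 := hs₀ _ hs1
    rw [le_div_iff₀ (by positivity)]
    calc (4 * Real.log (Real.log y) + 6) * (10 * Real.log (Real.log y))
        = 10 * Real.log (Real.log y) * (4 * Real.log (Real.log y) + 6) := by ring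
      _ ≤ Real.log y := h2
      _ = Real.log y * 1 := (mul_one _).symm
      _ ≤ _ := by gcongr

/-- weighted sum over the smooth integers, at the Rankin exponent `1 / log v` -/
theorem smooth_eta : ∃ C : ℝ, 0 < C ∧ ∀ v N : ℕ, 4 ≤ Real.log v →
    ∑ n ∈ (Icc 1 N).filter (fun n => ∀ p : ℕ, p.Prime → p ∣ n → p ≤ v),
      (n : ℝ) ^ (-(1 - 1 / Real.log v)) ≤ C * Real.log v := by
  obtain ⟨C, hC, h⟩ := euler_le
  refine ⟨C * Real.exp (4 * Real.exp 1 * (1 + C)), by positivity, fun v N hv => ?_⟩
  have hlv : 0 < Real.log v := by linarith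
  have hv2 : 2 ≤ v := by
    by_contra hcon
    have : v = 0 ∨ v = 1 := by omega
    rcases this with rfl | rfl <;> norm_num at hv
  have hv0 : (0 : ℝ) < v := by exact_mod_cast (by omega : 0 < v)
  have hη : 1 / Real.log v ≤ 1 / 4 := one_div_le_one_div_of_le (by norm_num) hv
  have h1 := smooth_tsum (σ := 1 - 1 / Real.log v) (by linarith) v N
  have h2 := h (1 / Real.log v) v (by positivity) hη hv2
  refine h1.trans (h2.trans ?_)
  have e1 : (v : ℝ) ^ (1 / Real.log v) = Real.exp 1 := by
    rw [Real.rpow_def_of_pos hv0]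
    congr 1
    field_simp
  rw [e1]
  have e2 : 4 * (1 / Real.log v) * Real.exp 1 * (Real.log v + C) ≤
      4 * Real.exp 1 * (1 + C) := by
    have e3 : 4 * (1 / Real.log v) * Real.exp 1 * (Real.log v + C) =
        4 * Real.exp 1 * (1 + C / Real.log v) := by
      field_simp
    rw [e3]
    have e4 : C / Real.log v ≤ C := div_le_self hC.le (by linarith)
    gcongr
  calc C * Real.log v * Real.exp (4 * (1 / Real.log v) * Real.exp 1 * (Real.log v + C))
      ≤ C * Real.log v * Real.exp (4 * Real.exp 1 * (1 + C)) := by gcongr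
    _ = _ := by ring

theorem card_one : ∃ C : ℝ, 0 < C ∧ ∃ y₀ : ℝ, ∀ y : ℝ, y₀ ≤ y → ∀ L : ℕ, y ≤ L →
    (L : ℝ) ≤ y * (Real.log y) ^ 4 →
    ((OM y L).card : ℝ) ≤ C * L * WW y / Real.log y := by
  obtain ⟨y₁, hmed⟩ := card_med
  obtain ⟨y₂, hWW⟩ := WW_big
  obtain ⟨C, hC, hsm⟩ := smooth_eta
  refine ⟨61 + 20 * C, by positivity, max y₁ y₂, fun y hy L hyL hLy => ?_⟩
  have hy1 : y₁ ≤ y := (le_max_left _ _).trans hy
  have hy2 : y₂ ≤ y := (le_max_right _ _).trans hy
  obtain ⟨hyone, hlyE, hll1, hW⟩ := hWW y hy2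
  have hy0 : 0 < y := by linarith
  have hE := Real.exp_one_gt_d9
  have hly : 1 ≤ Real.log y := by linarith
  have hly0 : 0 < Real.log y := by linarith
  have hL0 : (0 : ℝ) < L := by linarith
  set w := WW y with hw
  set v : ℕ := ⌊Real.exp w⌋₊ with hv
  have hvle : (v : ℝ) ≤ Real.exp w := Nat.floor_le (Real.exp_pos _).le
  have hvlt : Real.exp w < v + 1 := Nat.lt_floor_add_one _
  have hw10 : 10 ≤ w := by linarith
  -- exp w is large
  have hexpw : (Real.log y) ^ 4 * Real.exp 6 ≤ Real.exp w := by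
    have e1 : (Real.log y) ^ 4 = Real.exp (4 * Real.log (Real.log y)) := by
      rw [show (4 : ℝ) * Real.log (Real.log y) = Real.log (Real.log y) * (4 : ℕ) by push_cast; ring,
        Real.exp_mul, Real.exp_log hly0, Real.rpow_natCast]
    rw [e1, ← Real.exp_add]
    exact Real.exp_le_exp.2 hW
  have hl4 : Real.log y ≤ (Real.log y) ^ 4 := le_self_pow₀ hly (by norm_num)
  have hexp6 : 2 ≤ Real.exp 6 := by
    have := Real.add_one_le_exp (6 : ℝ)
    linarith
  have hexpw4 : (Real.log y) ^ 4 ≤ Real.exp w := by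
    have : 0 ≤ (Real.log y) ^ 4 := by positivity
    nlinarith
  have hvl : Real.log y ≤ v := by
    have e1 : (Real.log y) * 2 ≤ Real.exp w := by
      have e2 : Real.log y * 2 ≤ (Real.log y) ^ 4 * Real.exp 6 := by gcongr
      linarith
    linarith
  have hv0 : (0 : ℝ) < v := by linarith
  have hv1 : 1 ≤ v := by exact_mod_cast (by exact_mod_cast hv0 : 0 < v)
  have hlogv1 : Real.log v ≤ w := by
    rw [← Real.log_exp w]; exact Real.log_le_log hv0 hvle
  have hlogv4 : 4 ≤ Real.log v := by
    have e1 : Real.exp w ≤ 2 * v := by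
      have : (1 : ℝ) ≤ v := by exact_mod_cast hv1
      linarith
    have e2 := Real.log_le_log (Real.exp_pos _) e1
    rw [Real.log_exp, Real.log_mul (by norm_num) hv0.ne'] at e2
    have := Real.log_two_lt_d9
    linarith
  have hlogv0 : 0 < Real.log v := by linarith
  -- the three parts
  set Sm : Finset ℕ := (Icc 1 L).filter (fun n => ∀ p : ℕ, p.Prime → p ∣ n → p ≤ v) with hSm
  set B1 : Finset ℕ := (Ioc v L).biUnion (fun q => (Icc 1 L).filter (fun m => q ^ 2 ∣ m)) with hB1
  set B2 : Finset ℕ := Sm.biUnion (fun n => ((Icc 1 (L / n)).filter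
    (fun q : ℕ => q.Prime ∧ w < Real.log q)).image (fun q => q * n)) with hB2
  have hsub : OM y L ⊆ NM y L ∪ (B1 ∪ B2) := by
    intro m hm
    rw [OM, mem_filter] at hm
    obtain ⟨hmI, q, hq⟩ := hm
    have hmI' := mem_Icc.1 hmI
    rw [mem_union, mem_union]
    by_cases hN : m ∈ NM y L
    · left; exact hN
    right
    rw [NM, mem_filter] at hN
    push Not at hN
    obtain ⟨p, hp, hpm, hpy, hpW⟩ := hN hmI
    obtain ⟨n, rfl⟩ := hpm
    have hn1 : 1 ≤ n := by
      rcases Nat.eq_zero_or_pos n with rfl | h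
      · simp at hmI'
      · exact h
    have hp0 : (0 : ℝ) < p := by exact_mod_cast hp.pos
    have hpexp : Real.exp w < p := by rwa [Real.lt_log_iff_exp_lt hp0] at hpW
    have hvp : v < p := by
      have : (v : ℝ) < p := hvle.trans_lt hpexp
      exact_mod_cast this
    have hpL : p ≤ L := (Nat.le_mul_of_pos_right p hn1).trans hmI'.2
    have hnL : n ≤ L := (Nat.le_mul_of_pos_left n hp.pos).trans hmI'.2
    by_cases hpn : p ∣ n
    · left
      rw [hB1, mem_biUnion]
      refine ⟨p, mem_Ioc.2 ⟨hvp, hpL⟩, ?_⟩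
      rw [mem_filter]
      refine ⟨hmI, ?_⟩
      rw [pow_two]
      exact Nat.mul_dvd_mul_left p hpn
    · right
      rw [hB2, mem_biUnion]
      refine ⟨n, ?_, ?_⟩
      · rw [hSm, mem_filter, mem_Icc]
        refine ⟨⟨hn1, hnL⟩, fun r hr hrn => ?_⟩
        have hr0 : (0 : ℝ) < r := by exact_mod_cast hr.pos
        have hrL : p * r ≤ L := (Nat.mul_le_mul_left p (Nat.le_of_dvd hn1 hrn)).trans hmI'.2
        by_contra hcon
        push Not at hcon
        have hrv : (v : ℝ) + 1 ≤ r := by exact_mod_cast hcon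
        have hrexp : Real.exp w < r := lt_of_lt_of_le hvlt hrv
        have hrW : w < Real.log r := by rwa [Real.lt_log_iff_exp_lt hr0]
        by_cases hry : (r : ℝ) ≤ y
        · have h1 := hq r hr (Dvd.dvd.mul_left hrn p) hry hrW
          have h2 := hq p hp (Dvd.intro n rfl) hpy hpW
          rw [h1, ← h2] at hrn
          exact hpn hrn
        · push Not at hry
          have h3 : ((p * r : ℕ) : ℝ) ≤ L := by exact_mod_cast hrL
          push_cast at h3
          have h4 : (Real.log y) ^ 4 * y < p * r := by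
            calc (Real.log y) ^ 4 * y ≤ Real.exp w * y := by gcongr
              _ < p * r := by
                apply mul_lt_mul'' hpexp hry (Real.exp_pos _).le hy0.le
          linarith [mul_comm ((Real.log y) ^ 4) y]
      · rw [mem_image]
        refine ⟨p, ?_, rfl⟩
        rw [mem_filter, mem_Icc]
        refine ⟨⟨hp.pos, ?_⟩, hp, hpW⟩
        rw [Nat.le_div_iff_mul_le (by omega)]
        exact hmI'.2
  have hcard : ((OM y L).card : ℝ) ≤ ((NM y L).card : ℝ) + ((B1.card : ℝ) + (B2.card : ℝ)) := by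
    have h1 := (card_le_card hsub).trans (card_union_le _ _)
    have h2 := card_union_le B1 B2
    exact_mod_cast h1.trans (Nat.add_le_add_left h2 _)
  -- part 0
  have hP0 : ((NM y L).card : ℝ) ≤ 60 * L * w / Real.log y := by
    refine (hmed y hy1 L hyL hLy).trans ?_
    have h1 : Real.log (Real.log y) ≤ w := by linarith
    gcongr
  -- part 1
  have hP1 : (B1.card : ℝ) ≤ L * w / Real.log y := by
    have h1 : (B1.card : ℝ) ≤ ∑ q ∈ Ioc v L, (L : ℝ) * ((q : ℝ) ^ 2)⁻¹ := by
      have h2 : B1.card ≤ ∑ q ∈ Ioc v L, ((Icc 1 L).filter (fun m => q ^ 2 ∣ m)).card :=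
        card_biUnion_le
      have h3 : ∀ q ∈ Ioc v L, (((Icc 1 L).filter (fun m => q ^ 2 ∣ m)).card : ℝ) ≤
          (L : ℝ) * ((q : ℝ) ^ 2)⁻¹ := by
        intro q hq
        rw [mem_Ioc] at hq
        have e0 : Icc 1 L = Ioc 0 L := by ext; simp [mem_Icc, mem_Ioc]; omega
        have e1 : ((Icc 1 L).filter (fun m => q ^ 2 ∣ m)).card = L / q ^ 2 := by
          rw [e0, Nat.Ioc_filter_dvd_card_eq_div]
        rw [e1]
        have e2 : ((L / q ^ 2 : ℕ) : ℝ) ≤ (L : ℝ) / ((q ^ 2 : ℕ) : ℝ) := Nat.cast_div_le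
        push_cast at e2
        rwa [div_eq_mul_inv] at e2
      calc (B1.card : ℝ) ≤ ((∑ q ∈ Ioc v L, ((Icc 1 L).filter (fun m => q ^ 2 ∣ m)).card : ℕ) : ℝ) := by
            exact_mod_cast h2
        _ = ∑ q ∈ Ioc v L, (((Icc 1 L).filter (fun m => q ^ 2 ∣ m)).card : ℝ) := by push_cast; rfl
        _ ≤ _ := sum_le_sum h3
    have h4 : ∑ q ∈ Ioc v L, ((q : ℝ) ^ 2)⁻¹ ≤ (v : ℝ)⁻¹ := by
      by_cases hvL : v ≤ L
      · have h5 := sum_Ioc_inv_sq_le_sub (α := ℝ) (by omega : v ≠ 0) hvL
        have h6 : (0 : ℝ) ≤ (L : ℝ)⁻¹ := by positivity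
        linarith
      · rw [Ioc_eq_empty (by omega)]
        simp
    rw [← mul_sum] at h1
    refine h1.trans ?_
    have h5 : (v : ℝ)⁻¹ ≤ w / Real.log y := by
      rw [inv_eq_one_div, div_le_div_iff₀ hv0 hly0]
      nlinarith
    calc (L : ℝ) * ∑ q ∈ Ioc v L, ((q : ℝ) ^ 2)⁻¹ ≤ L * (w / Real.log y) := by
          apply mul_le_mul_of_nonneg_left (h4.trans h5) hL0.le
      _ = _ := by ring
  -- part 2
  have hlogL : Real.log y ≤ Real.log L := Real.log_le_log hy0 hyL
  have hlogL0 : 0 < Real.log L := by linarith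
  have hP2 : (B2.card : ℝ) ≤ 20 * C * L * w / Real.log y := by
    have h1 : (B2.card : ℝ) ≤ ∑ n ∈ Sm, (((Icc 1 (L / n)).filter
        (fun q : ℕ => q.Prime ∧ w < Real.log q)).card : ℝ) := by
      have h2 : B2.card ≤ ∑ n ∈ Sm, ((Icc 1 (L / n)).filter
          (fun q : ℕ => q.Prime ∧ w < Real.log q)).card :=
        card_biUnion_le.trans (sum_le_sum fun n _ => card_image_le)
      exact_mod_cast h2
    have h2 : ∀ n ∈ Sm, (((Icc 1 (L / n)).filter
        (fun q : ℕ => q.Prime ∧ w < Real.log q)).card : ℝ) ≤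
        20 * L / Real.log L * (n : ℝ) ^ (-(1 - 1 / Real.log v)) := by
      intro n hn
      rw [hSm, mem_filter, mem_Icc] at hn
      have hn1 : 1 ≤ n := hn.1.1
      have hn0 : (0 : ℝ) < n := by exact_mod_cast hn1
      by_cases hemp : ((Icc 1 (L / n)).filter (fun q : ℕ => q.Prime ∧ w < Real.log q)) = ∅
      · rw [hemp]
        simp only [card_empty, Nat.cast_zero]
        positivity
      · obtain ⟨q, hq⟩ := nonempty_iff_ne_empty.2 hemp
        rw [mem_filter, mem_Icc] at hq
        have hM2 : 2 ≤ L / n := hq.2.1.two_le.trans hq.1.2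
        set M := L / n with hM
        have hM0 : (2 : ℝ) ≤ M := by exact_mod_cast hM2
        have hlogM : w ≤ Real.log M := by
          have hq0 : (0 : ℝ) < q := by exact_mod_cast hq.2.1.pos
          have : Real.log q ≤ Real.log M := Real.log_le_log hq0 (by exact_mod_cast hq.1.2)
          linarith [hq.2.2]
        have hMle : (M : ℝ) ≤ (L : ℝ) / n := Nat.cast_div_le
        have hMlt : (L : ℝ) / n < M + 1 := by
          rw [div_lt_iff₀ hn0]
          have : L < (M + 1) * n := by
            rw [hM]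
            exact (Nat.div_lt_iff_lt_mul hn1).1 (Nat.lt_succ_self _)
          exact_mod_cast this
        have hx0 : 0 < (L : ℝ) / n := by positivity
        have hlx : Real.log ((L : ℝ) / n) ≤ 2 * Real.log M := by
          have e1 : (L : ℝ) / n ≤ (M : ℝ) ^ 2 := by nlinarith
          have e2 := Real.log_le_log hx0 e1
          rw [Real.log_pow] at e2
          push_cast at e2
          exact e2
        have hlx2 : w ≤ Real.log ((L : ℝ) / n) := hlogM.trans (Real.log_le_log (by linarith) hMle)
        have hlx0 : 0 < Real.log ((L : ℝ) / n) := by linarith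
        have h5 := primes_le M hM2
        have h6 : (((Icc 1 M).filter (fun q : ℕ => q.Prime ∧ w < Real.log q)).card : ℝ) ≤
            (((Icc 1 M).filter Nat.Prime).card : ℝ) := by
          exact_mod_cast card_le_card (fun q hq => by
            rw [mem_filter] at hq ⊢
            exact ⟨hq.1, hq.2.1⟩)
        have h7 : 10 * (M : ℝ) / Real.log M ≤ 20 * (L / n) / Real.log ((L : ℝ) / n) := by
          rw [div_le_div_iff₀ (by linarith) hlx0]
          have e1 : 10 * (M : ℝ) * Real.log ((L : ℝ) / n) ≤ 10 * (L / n) * (2 * Real.log M) := by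
            gcongr
          linarith
        have h8 : 1 / Real.log ((L : ℝ) / n) ≤
            (n : ℝ) ^ (1 / Real.log v) / Real.log L := by
          rw [div_le_div_iff₀ hlx0 hlogL0, one_mul]
          have e1 : Real.log L = Real.log ((L : ℝ) / n) + Real.log n := by
            rw [Real.log_div hL0.ne' hn0.ne']; ring
          have hln : 0 ≤ Real.log n := Real.log_nonneg (by exact_mod_cast hn1)
          have e2 : 1 + Real.log n / Real.log v ≤ (n : ℝ) ^ (1 / Real.log v) := by
            rw [Real.rpow_def_of_pos hn0]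
            have := Real.add_one_le_exp (Real.log n * (1 / Real.log v))
            have e3 : Real.log n * (1 / Real.log v) = Real.log n / Real.log v := by ring
            rw [e3] at this ⊢
            linarith
          have e4 : Real.log n ≤ Real.log n / Real.log v * Real.log ((L : ℝ) / n) := by
            rw [div_mul_eq_mul_div, le_div_iff₀ hlogv0]
            exact mul_le_mul_of_nonneg_left (hlogv1.trans hlx2) hln
          rw [e1]
          calc Real.log ((L : ℝ) / n) + Real.log n
              ≤ Real.log ((L : ℝ) / n) + Real.log n / Real.log v * Real.log ((L : ℝ) / n) := by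
                linarith
            _ = (1 + Real.log n / Real.log v) * Real.log ((L : ℝ) / n) := by ring
            _ ≤ _ := by gcongr
        have h9 : (n : ℝ) ^ (-(1 - 1 / Real.log v)) = (n : ℝ) ^ (1 / Real.log v) / n := by
          rw [show -(1 - 1 / Real.log v) = 1 / Real.log v - 1 by ring, Real.rpow_sub hn0,
            Real.rpow_one]
        rw [h9]
        calc _ ≤ 10 * (M : ℝ) / Real.log M := h6.trans h5
          _ ≤ 20 * (L / n) / Real.log ((L : ℝ) / n) := h7
          _ = 20 * (L / n) * (1 / Real.log ((L : ℝ) / n)) := by ring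
          _ ≤ 20 * (L / n) * ((n : ℝ) ^ (1 / Real.log v) / Real.log L) := by gcongr
          _ = _ := by ring
    have h3 := h1.trans (sum_le_sum h2)
    rw [← mul_sum] at h3
    have h4 := hsm v L hlogv4
    calc (B2.card : ℝ) ≤ 20 * L / Real.log L * (C * Real.log v) := by
          refine h3.trans ?_
          gcongr
      _ ≤ 20 * L / Real.log y * (C * w) := by gcongr
      _ = _ := by ring
  have hfin : 60 * L * w / Real.log y + (L * w / Real.log y + 20 * C * L * w / Real.log y) =
      (61 + 20 * C) * L * w / Real.log y := by ring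
  linarith

end TH415.AP
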