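import Pool.Agent.H80.Q.Evs

set_option autoImplicit false

/-! # Integers with few medium prime factors (helper80) -/

namespace Pool.Agent.H80.Pk

open Finset Filter Pool.Agent.H318R2.Cr Pool.Agent.H361R2.PA TH415.AP

open scoped Classical

/-- the medium primes -/
def MM (v Y : ℕ) : Finset ℕ := (Ioc v Y).filter Nat.Prime

theorem hits_om (v Y : ℕ) (k : ℤ) : hits (MM v Y) (fun _ => 0) k = om v Y k.natAbs := by
  unfold hits om MM
  congr 1
  apply filter_congr
  intro p _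
  rw [sub_zero, Int.natCast_dvd]

theorem card_A (v Y N j : ℕ) :
    (((Icc (-(N : ℤ)) (N : ℤ)).filter (fun k => hits (MM v Y) (fun _ => 0) k ≤ j)).card : ℝ) ≤
      2 * (((Icc 1 N).filter (fun m => om v Y m ≤ j)).card : ℝ) + 1 := by
  apply card_sym
  intro a ha h0
  rw [mem_filter, mem_Icc] at ha
  rw [mem_filter, mem_Icc]
  refine ⟨⟨by omega, by omega⟩, ?_⟩
  rw [← hits_om]
  exact ha.2

theorem med_of (y w : ℝ) (v Y : ℕ) (hv : v = ⌊Real.exp w⌋₊) (hY : Y = ⌊y⌋₊) (p : ℕ)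
    (hp : p.Prime) (hpy : (p : ℝ) ≤ y) (hpw : w < Real.log p) : p ∈ (Ioc v Y).filter Nat.Prime := by
  rw [mem_filter, mem_Ioc]
  refine ⟨⟨?_, ?_⟩, hp⟩
  · rw [hv, Nat.floor_lt (Real.exp_pos _).le]
    exact (Real.lt_log_iff_exp_lt (by exact_mod_cast hp.pos)).1 hpw
  · rw [hY]
    exact Nat.le_floor hpy

theorem om_zero_sub (y : ℝ) (v Y N : ℕ) (hv : v = ⌊Real.exp (WW y)⌋₊)
    (hY : Y = ⌊y⌋₊) : (Icc 1 N).filter (fun m => om v Y m ≤ 0) ⊆ NM y N := by
  intro m hm
  rw [mem_filter] at hm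
  rw [NM, mem_filter]
  refine ⟨hm.1, fun p hp hpm => ?_⟩
  by_contra hcon
  push Not at hcon
  have h1 := med_of y (WW y) v Y hv hY p hp hcon.1 hcon.2
  have h2 : om v Y m = 0 := by omega
  unfold om at h2
  rw [card_eq_zero, filter_eq_empty_iff] at h2
  exact h2 h1 hpm

theorem om_one_sub (y : ℝ) (v Y N : ℕ) (hv : v = ⌊Real.exp (WW y)⌋₊)
    (hY : Y = ⌊y⌋₊) : (Icc 1 N).filter (fun m => om v Y m ≤ 1) ⊆ OM y N := by
  intro m hm
  rw [mem_filter] at hm
  rw [OM, mem_filter]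
  refine ⟨hm.1, ?_⟩
  have h1 := hm.2
  unfold om at h1
  rw [card_le_one_iff_subset_singleton] at h1
  obtain ⟨q, hq⟩ := h1
  refine ⟨q, fun p hp hpm hpy hpw => ?_⟩
  have h2 : p ∈ ((Ioc v Y).filter Nat.Prime).filter (fun p => p ∣ m) :=
    mem_filter.2 ⟨med_of y (WW y) v Y hv hY p hp hpy hpw, hpm⟩
  exact mem_singleton.1 (hq h2)

theorem cnt (k : ℕ) (hk : 2 ≤ k) (d₁ d₂ : ℝ) (hd₁ : 0 < d₁) (hd₁₂ : d₁ ≤ d₂)
    (hVV : ∀ z : ℕ, 2 ≤ z → d₁ ≤ V z * Real.log z ∧ V z * Real.log z ≤ d₂) :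
    ∃ C : ℝ, 0 < C ∧ ∃ K : ℝ, ∀ (X u₂ u₃ u₄ y w : ℝ) (v Y : ℕ),
      Sz K (2 * k) d₁ d₂ X u₂ u₃ u₄ y w v Y → ∀ N : ℕ, y ≤ N → (N : ℝ) ≤ Real.log X * u₂ ^ 2 →
      (((Icc (-(N : ℤ)) (N : ℤ)).filter
        (fun k => hits (MM v Y) (fun _ => 0) k ≤ 0)).card : ℝ) ≤ C * N * (u₃ / u₂) ∧
      ∀ j : ℕ, 1 ≤ j → j ≤ k → (((Icc (-(N : ℤ)) (N : ℤ)).filter
        (fun k => hits (MM v Y) (fun _ => 0) k ≤ j)).card : ℝ) ≤
        C * N * (w * u₃ ^ (j - 1) / u₂) := by
  have hd₂ : 0 < d₂ := hd₁.trans_le hd₁₂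
  obtain ⟨y₀, hmed⟩ := card_med
  obtain ⟨C, hC, y₁, hone⟩ := card_one
  refine ⟨241 + 4 * C + 2 * (28 * d₂ * Real.exp 4 / (d₁ * d₁)) + 1, by positivity,
    |y₀| + |y₁| + 100, fun X u₂ u₃ u₄ y w v Y H N hyN hNL => ?_⟩
  have ha0 := abs_nonneg y₀
  have ha1 := abs_nonneg y₁
  have hb0 := le_abs_self y₀
  have hb1 := le_abs_self y₁
  have h4 := H.h41
  have h43 := H.h43
  have h32 := H.h32
  have hK4 := H.hK4
  have hu₄0 : 0 < u₄ := by linarith
  have hu₃0 : 0 < u₃ := by linarith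
  have hu₂0 : 0 < u₂ := by linarith
  have hL1 : 0 < Real.log X := by
    have h1 := H.h2k 0 (by omega)
    rw [pow_zero] at h1
    linarith
  have hy0 : 0 < y := by rw [H.hy]; positivity
  have hyK := H.hKy
  have hly0 : 0 < Real.log y := by linarith [H.hly1]
  have hN0 : (0 : ℝ) < N := by linarith
  have hNy : (N : ℝ) ≤ y * (Real.log y) ^ 4 := by
    refine hNL.trans ?_
    have h1 : (u₂ / 2) ^ 4 ≤ (Real.log y) ^ 4 := by
      have := H.hly1
      gcongr
    have h2 : Real.log X = y * u₂ := by rw [H.hy]; field_simp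
    rw [h2]
    calc y * u₂ * u₂ ^ 2 = y * (u₂ ^ 3 * 1) := by ring
      _ ≤ y * (u₂ ^ 3 * (u₂ / 16)) := by
        have h5 : 1 ≤ u₂ / 16 := by linarith
        gcongr
      _ = y * (u₂ / 2) ^ 4 := by ring
      _ ≤ _ := by gcongr
  have hw0 : 10 ≤ w := H.hw10
  have hone' : 1 ≤ (N : ℝ) * (u₃ / u₂) := by
    rw [← mul_div_assoc, le_div_iff₀ hu₂0, one_mul]
    have h1 : u₂ ≤ y := by
      rw [H.hy, le_div_iff₀ hu₂0]
      have h1 := H.h2k 2 (by omega)
      have h2 : 1 * u₂ ^ 2 ≤ (|y₀| + |y₁| + 100) * u₂ ^ 2 := by gcongr; linarith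
      linarith [h2, h1, sq u₂]
    calc u₂ ≤ N := h1.trans hyN
      _ = N * 1 := (mul_one _).symm
      _ ≤ N * u₃ := by gcongr; linarith
  have hu32 : 0 < u₃ / u₂ := by positivity
  refine ⟨?_, fun j hj1 hjk => ?_⟩
  · have h1 := card_A v Y N 0
    have h2 : (((Icc 1 N).filter (fun m => om v Y m ≤ 0)).card : ℝ) ≤ ((NM y N).card : ℝ) := by
      have hvv := H.hv
      rw [H.hw] at hvv
      exact_mod_cast card_le_card (om_zero_sub y v Y N hvv H.hY)
    have h3 := hmed y (by linarith) N hyN hNy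
    have h5 : 60 * (N : ℝ) * Real.log (Real.log y) / Real.log y ≤ 60 * N * u₃ / (u₂ / 2) := by
      have e1 := H.hlly
      have e2 := H.hly1
      have e3 := H.hlly0
      gcongr
    have h6 : 60 * (N : ℝ) * u₃ / (u₂ / 2) = 120 * (N * (u₃ / u₂)) := by
      field_simp
      norm_num
    have h7 : (0 : ℝ) ≤ (4 * C + 2 * (28 * d₂ * Real.exp 4 / (d₁ * d₁)) + 1) *
        (N * (u₃ / u₂)) := by positivity
    calc _ ≤ 2 * (120 * (N * (u₃ / u₂))) + 1 := by linarith
      _ ≤ 241 * (N * (u₃ / u₂)) := by linarith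
      _ ≤ 241 * (N * (u₃ / u₂)) + (4 * C + 2 * (28 * d₂ * Real.exp 4 / (d₁ * d₁)) + 1) *
        (N * (u₃ / u₂)) := by linarith
      _ = _ := by ring
  · have h1 := card_A v Y N j
    have hone2 : 1 ≤ (N : ℝ) * (w * u₃ ^ (j - 1) / u₂) := by
      refine hone'.trans ?_
      have e1 : u₃ ≤ w := by
        refine le_trans ?_ H.hw1
        rw [le_div_iff₀ (by positivity)]
        have e2 := H.h3k 2 (by omega)
        have e3 : u₂ ^ (1 / 12 : ℝ) ≤ u₂ := by
          calc u₂ ^ (1 / 12 : ℝ) ≤ u₂ ^ (1 : ℝ) :=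
                Real.rpow_le_rpow_of_exponent_le (by linarith) (by norm_num)
            _ = u₂ := Real.rpow_one _
        have e4 : 40 * u₃ ^ 2 ≤ (|y₀| + |y₁| + 100) * u₃ ^ 2 := by gcongr; linarith
        calc u₃ * (40 * u₃) = 40 * u₃ ^ 2 := by ring
          _ ≤ u₂ := by linarith
          _ = u₂ * 1 := (mul_one _).symm
          _ ≤ u₂ * u₄ := by gcongr
      have e5 : 1 ≤ u₃ ^ (j - 1) := one_le_pow₀ (by linarith)
      have e6 : u₃ ≤ w * u₃ ^ (j - 1) := by
        calc u₃ = u₃ * 1 := (mul_one _).symm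
          _ ≤ w * u₃ ^ (j - 1) := by gcongr
      gcongr
    set Q := (N : ℝ) * (w * u₃ ^ (j - 1) / u₂) with hQ
    have hQ0 : 0 < Q := by linarith
    have hmain : (((Icc 1 N).filter (fun m => om v Y m ≤ j)).card : ℝ) ≤
        (2 * C + 28 * d₂ * Real.exp 4 / (d₁ * d₁)) * Q := by
      rcases Nat.eq_or_lt_of_le hj1 with hj | hj
      · rw [← hj]
        have h2 : (((Icc 1 N).filter (fun m => om v Y m ≤ 1)).card : ℝ) ≤
            ((OM y N).card : ℝ) := by
          have hvv := H.hv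
          rw [H.hw] at hvv
          exact_mod_cast card_le_card (om_one_sub y v Y N hvv H.hY)
        have h3 := hone y (by linarith) N hyN hNy
        rw [← H.hw] at h3
        have h5 : C * (N : ℝ) * w / Real.log y ≤ C * N * w / (u₂ / 2) := by
          have e2 := H.hly1
          gcongr
        have h6 : C * (N : ℝ) * w / (u₂ / 2) = 2 * C * Q := by
          rw [hQ, ← hj]
          simp only [Nat.sub_self, pow_zero]
          field_simp
        have h7 : 0 ≤ 28 * d₂ * Real.exp 4 / (d₁ * d₁) * Q := by positivity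
        linarith
      · have ht0 : 0 < 1 / u₄ := by positivity
        have ht1 : 1 / u₄ ≤ 1 := by rw [div_le_one hu₄0]; exact h4
        have hYN : Y ≤ N := by
          rw [H.hY]
          exact Nat.floor_le_of_le hyN
        have hN2 : 2 ≤ N := H.hv2.trans (H.hvY.trans hYN)
        have h2 := card_om (1 / u₄) ht0 ht1 v Y N j H.hvY hYN hN2
        have hlN0 : 0 < Real.log N := Real.log_pos (by exact_mod_cast (by omega : 1 < N))
        have hlY0 : 0 < Real.log Y := by linarith [H.hlY]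
        have e1 : Real.exp (2 * (1 / u₄) * (Real.log (V v) - Real.log (V Y))) ≤ Real.exp 4 := by
          apply Real.exp_le_exp.2
          calc 2 * (1 / u₄) * (Real.log (V v) - Real.log (V Y)) ≤ 2 * (1 / u₄) * (2 * u₄) := by
                have := H.hVd
                gcongr
            _ = 4 := by field_simp; norm_num
        have e2 : 7 * (N : ℝ) / Real.log N * (V Y / V N) ≤ 28 * d₂ * N / (d₁ * u₂) := by
          have q1 := (hVV N hN2).1
          have q2 := (hVV Y (H.hv2.trans H.hvY)).2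
          have hVN := V_pos N
          have hVY := V_pos Y
          have q3 : 7 * (N : ℝ) / Real.log N * (V Y / V N) = 7 * N * V Y / (V N * Real.log N) := by
            field_simp
          rw [q3]
          have q4 : V Y ≤ d₂ / (u₂ / 4) := by
            rw [le_div_iff₀ (by positivity)]
            refine le_trans ?_ q2
            have := H.hlY
            gcongr
          calc 7 * N * V Y / (V N * Real.log N) ≤ 7 * N * (d₂ / (u₂ / 4)) / d₁ := by gcongr
            _ = _ := by field_simp; norm_num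
        have e3 : u₄ ^ j ≤ u₃ ^ (j - 1) := by
          have q1 : u₄ ^ 2 ≤ u₃ := by
            have := H.h4k 2 (by omega)
            have q2 : 1 * u₄ ^ 2 ≤ (|y₀| + |y₁| + 100) * u₄ ^ 2 := by gcongr; linarith
            linarith
          calc u₄ ^ j ≤ u₄ ^ (2 * (j - 1)) := pow_le_pow_right₀ h4 (by omega)
            _ = (u₄ ^ 2) ^ (j - 1) := by rw [pow_mul]
            _ ≤ u₃ ^ (j - 1) := by gcongr
        have e4 : (1 / u₄) ^ j * (((Icc 1 N).filter (fun m => om v Y m ≤ j)).card : ℝ) ≤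
            28 * d₂ * N / (d₁ * u₂) * (w / d₁ * Real.exp 4) := by
          refine h2.trans ?_
          have hVY := V_pos Y
          have hVN := V_pos N
          calc 7 * (N : ℝ) / Real.log N * ((V v)⁻¹ * Real.exp (2 * (1 / u₄) *
                (Real.log (V v) - Real.log (V Y))) * (V Y / V N)) =
              (7 * (N : ℝ) / Real.log N * (V Y / V N)) * ((V v)⁻¹ * Real.exp (2 * (1 / u₄) *
                (Real.log (V v) - Real.log (V Y)))) := by ring
            _ ≤ 28 * d₂ * N / (d₁ * u₂) * (w / d₁ * Real.exp 4) := by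
              have hh := H.hVv'
              have := inv_pos.2 (V_pos v)
              gcongr
        have e5 : (1 / u₄) ^ j = 1 / u₄ ^ j := by rw [one_div, one_div, inv_pow]
        rw [e5, one_div_mul_eq_div, div_le_iff₀ (by positivity)] at e4
        refine e4.trans ?_
        have h7 : 0 ≤ 2 * C * Q := by positivity
        calc 28 * d₂ * N / (d₁ * u₂) * (w / d₁ * Real.exp 4) * u₄ ^ j ≤
            28 * d₂ * N / (d₁ * u₂) * (w / d₁ * Real.exp 4) * u₃ ^ (j - 1) := by gcongr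
          _ = 28 * d₂ * Real.exp 4 / (d₁ * d₁) * Q := by
            rw [hQ]
            field_simp
          _ ≤ _ := by linarith
    calc _ ≤ 2 * ((2 * C + 28 * d₂ * Real.exp 4 / (d₁ * d₁)) * Q) + 1 := by linarith
      _ ≤ 2 * ((2 * C + 28 * d₂ * Real.exp 4 / (d₁ * d₁)) * Q) + Q + 241 * Q := by linarith
      _ = _ := by rw [hQ]; ring

end Pool.Agent.H80.Pk
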