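import Pool.Agent.H80.Pk.HT
import Pool.Agent.H80.Q.APPre

set_option autoImplicit false

/-! # The Euler product of the weight `t ^ ω` over the medium primes (helper80) -/

namespace Pool.Agent.H80.Pk

open Finset Pool.Agent.H318R2.Cr

/-- number of prime factors in `(v, Y]` -/
def om (v Y m : ℕ) : ℕ := (((Ioc v Y).filter Nat.Prime).filter (fun p => p ∣ m)).card

theorem om_mul (v Y : ℕ) {m n : ℕ} (h : m.Coprime n) : om v Y (m * n) = om v Y m + om v Y n := by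
  unfold om
  rw [← card_union_of_disjoint]
  · congr 1
    ext p
    simp only [mem_filter, mem_union]
    constructor
    · rintro ⟨⟨h1, h2⟩, h3⟩
      rcases (Nat.Prime.dvd_mul h2).1 h3 with h4 | h4
      · exact Or.inl ⟨⟨h1, h2⟩, h4⟩
      · exact Or.inr ⟨⟨h1, h2⟩, h4⟩
    · rintro (⟨h1, h2⟩ | ⟨h1, h2⟩)
      · exact ⟨h1, Dvd.dvd.mul_right h2 n⟩
      · exact ⟨h1, Dvd.dvd.mul_left h2 m⟩
  · rw [disjoint_left]
    intro p h1 h2
    simp only [mem_filter] at h1 h2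
    have h3 := Nat.dvd_gcd h1.2 h2.2
    rw [h] at h3
    exact h1.1.2.one_lt.ne' (Nat.dvd_one.1 h3)

theorem om_le (v Y d m : ℕ) : om v Y m ≤ om v Y (d * m) := by
  unfold om
  apply card_le_card
  intro p
  simp only [mem_filter]
  rintro ⟨h1, h2⟩
  exact ⟨h1, Dvd.dvd.mul_left h2 d⟩

theorem om_pow (v Y p k : ℕ) (hp : p.Prime) :
    om v Y (p ^ (k + 1)) = if v < p ∧ p ≤ Y then 1 else 0 := by
  unfold om
  split_ifs with h
  · rw [card_eq_one]
    refine ⟨p, ?_⟩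
    ext q
    simp only [mem_filter, mem_Ioc, mem_singleton]
    constructor
    · rintro ⟨⟨_, hq⟩, h2⟩
      exact (Nat.prime_dvd_prime_iff_eq hq hp).1 (hq.dvd_of_dvd_pow h2)
    · rintro rfl
      exact ⟨⟨h, hp⟩, dvd_pow_self q (by omega)⟩
  · rw [card_eq_zero, filter_eq_empty_iff]
    intro q hq h2
    rw [mem_filter, mem_Ioc] at hq
    have := (Nat.prime_dvd_prime_iff_eq hq.2 hp).1 (hq.2.dvd_of_dvd_pow h2)
    rw [← this] at h
    exact h hq.1

theorem om_one (v Y : ℕ) : om v Y 1 = 0 := by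
  unfold om
  rw [card_eq_zero, filter_eq_empty_iff]
  intro q hq h2
  rw [mem_filter] at hq
  exact hq.2.one_lt.ne' (Nat.dvd_one.1 h2)

/-- the weight -/
noncomputable def gg (t : ℝ) (v Y n : ℕ) : ℝ := t ^ (om v Y n) / n

theorem gg_hasSum (t : ℝ) (v Y p : ℕ) (hp : p.Prime) :
    HasSum (fun n => gg t v Y (p ^ n))
      (if v < p ∧ p ≤ Y then 1 + t / ((p : ℝ) - 1) else (1 - 1 / (p : ℝ))⁻¹) := by
  have hp2 : (2 : ℝ) ≤ p := by exact_mod_cast hp.two_le
  have hp0 : (0 : ℝ) < p := by linarith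
  have hp1 : (p : ℝ) - 1 ≠ 0 := by linarith
  have h1 : HasSum (fun n : ℕ => (1 / (p : ℝ)) ^ n) (1 - 1 / (p : ℝ))⁻¹ :=
    hasSum_geometric_of_lt_one (by positivity) (by rw [div_lt_one hp0]; linarith)
  set s : ℝ := if v < p ∧ p ≤ Y then t else 1 with hs
  have h2 := (h1.mul_left s).add (hasSum_ite_eq (0 : ℕ) (1 - s))
  have h3 : (fun n => gg t v Y (p ^ n)) =
      fun n => s * (1 / (p : ℝ)) ^ n + (if n = 0 then 1 - s else 0) := by
    funext n
    unfold gg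
    cases n with
    | zero => simp [om_one]
    | succ k =>
      rw [om_pow v Y p k hp]
      push_cast
      rw [add_zero, one_div, inv_pow, hs]
      split_ifs
      · rw [pow_one, div_eq_mul_inv]
      · rw [pow_zero, div_eq_mul_inv]
  have h4 : (if v < p ∧ p ≤ Y then 1 + t / ((p : ℝ) - 1) else (1 - 1 / (p : ℝ))⁻¹) =
      s * (1 - 1 / (p : ℝ))⁻¹ + (1 - s) := by
    rw [hs]
    have h5 : (1 - 1 / (p : ℝ))⁻¹ = p / (p - 1) := by
      rw [← inv_div]
      congr 1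
      field_simp
    split_ifs
    · rw [h5]
      field_simp
      ring
    · ring
  rw [h3, h4]
  exact h2

theorem euler_t (t : ℝ) (ht0 : 0 ≤ t) (v Y N : ℕ) :
    ∑ m ∈ Icc 1 N, t ^ (om v Y m) / (m : ℝ) ≤
      ∏ p ∈ Pz N, (if v < p ∧ p ≤ Y then 1 + t / ((p : ℝ) - 1) else (1 - 1 / (p : ℝ))⁻¹) := by
  classical
  have hg0 : ∀ n, 0 ≤ gg t v Y n := fun n => by unfold gg; positivity
  have h := EulerProduct.summable_and_hasSum_factoredNumbers_prod_filter_prime_tsum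
    (f := gg t v Y) (by unfold gg; rw [om_one]; simp)
    (by
      intro m n hmn
      unfold gg
      rw [om_mul v Y hmn, pow_add]
      push_cast
      rw [mul_div_mul_comm])
    (by
      intro p hp
      have := (gg_hasSum t v Y p hp).summable
      refine this.congr fun n => ?_
      rw [Real.norm_of_nonneg (hg0 _)]) (Ioc 0 N)
  have h2 := h.2
  have e1 : (∏ p ∈ (Ioc 0 N) with p.Prime, ∑' n, gg t v Y (p ^ n)) =
      ∏ p ∈ Pz N, (if v < p ∧ p ≤ Y then 1 + t / ((p : ℝ) - 1) else (1 - 1 / (p : ℝ))⁻¹) := by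
    apply prod_congr rfl
    intro p hp
    rw [mem_filter] at hp
    exact (gg_hasSum t v Y p hp.2).tsum_eq
  rw [e1] at h2
  have hmem : ∀ n ∈ Icc 1 N, n ∈ Nat.factoredNumbers (Ioc 0 N) := by
    intro n hn
    rw [mem_Icc] at hn
    rw [Nat.mem_factoredNumbers]
    refine ⟨by omega, fun p hp => ?_⟩
    have hpp := Nat.prime_of_mem_primeFactorsList hp
    rw [mem_Ioc]
    exact ⟨hpp.pos, (Nat.le_of_dvd (by omega) (Nat.dvd_of_mem_primeFactorsList hp)).trans hn.2⟩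
  have h3 := sum_le_hasSum ((Icc 1 N).attach.image
    (fun n => (⟨n.1, hmem n.1 n.2⟩ : Nat.factoredNumbers (Ioc 0 N))))
    (fun i _ => hg0 i.1) h2
  rw [sum_image (by
    intro a _ b _ hab
    have := congrArg Subtype.val hab
    exact Subtype.ext this)] at h3
  refine le_trans (le_of_eq ?_) h3
  rw [← sum_attach]
  rfl

/-- splitting the product -/
theorem prod_bd (t : ℝ) (ht0 : 0 ≤ t) (v Y N : ℕ) (hvY : v ≤ Y) (hYN : Y ≤ N) :
    ∏ p ∈ Pz N, (if v < p ∧ p ≤ Y then 1 + t / ((p : ℝ) - 1) else (1 - 1 / (p : ℝ))⁻¹) ≤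
      (V v)⁻¹ * Real.exp (2 * t * (Real.log (V v) - Real.log (V Y))) * (V Y / V N) := by
  have hsub : ∀ a b : ℕ, a ≤ b → Pz a ⊆ Pz b := fun a b hab p hp =>
    mem_Pz.2 ⟨(mem_Pz.1 hp).1, (mem_Pz.1 hp).2.trans hab⟩
  have hdiff : ∀ a b : ℕ, a ≤ b → ∀ f : ℕ → ℝ,
      ∏ p ∈ Pz b, f p = (∏ p ∈ Pz a, f p) * ∏ p ∈ Pz b \ Pz a, f p := by
    intro a b hab f
    rw [mul_comm, prod_sdiff (hsub a b hab)]
  have hVd : ∀ a b : ℕ, a ≤ b → V b = V a * ∏ p ∈ Pz b \ Pz a, (1 - 1 / (p : ℝ)) :=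
    fun a b hab => hdiff a b hab _
  rw [hdiff Y N hYN, hdiff v Y hvY]
  have e1 : ∏ p ∈ Pz v, (if v < p ∧ p ≤ Y then 1 + t / ((p : ℝ) - 1) else
      (1 - 1 / (p : ℝ))⁻¹) = (V v)⁻¹ := by
    unfold V
    rw [← prod_inv_distrib]
    apply prod_congr rfl
    intro p hp
    rw [if_neg (fun h => absurd (mem_Pz.1 hp).2 (not_le.2 h.1))]
  have e3 : ∏ p ∈ Pz N \ Pz Y, (if v < p ∧ p ≤ Y then 1 + t / ((p : ℝ) - 1) else
      (1 - 1 / (p : ℝ))⁻¹) = V Y / V N := by
    rw [hVd Y N hYN, div_mul_eq_div_div, div_self (V_pos Y).ne', one_div, ← prod_inv_distrib]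
    apply prod_congr rfl
    intro p hp
    rw [mem_sdiff] at hp
    rw [if_neg (fun h => hp.2 (mem_Pz.2 ⟨(mem_Pz.1 hp.1).1, h.2⟩))]
  have e2 : ∏ p ∈ Pz Y \ Pz v, (if v < p ∧ p ≤ Y then 1 + t / ((p : ℝ) - 1) else
      (1 - 1 / (p : ℝ))⁻¹) ≤ Real.exp (2 * t * (Real.log (V v) - Real.log (V Y))) := by
    have h0 : Real.log (V v) - Real.log (V Y) =
        ∑ p ∈ Pz Y \ Pz v, -Real.log (1 - 1 / (p : ℝ)) := by
      have hpos : ∀ p ∈ Pz Y \ Pz v, (0 : ℝ) < 1 - 1 / (p : ℝ) := fun p hp =>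
        one_sub_inv_pos (mem_Pz.1 (mem_sdiff.1 hp).1).1
      rw [hVd v Y hvY, Real.log_mul (V_pos v).ne' (prod_pos hpos).ne',
        Real.log_prod (fun p hp => (hpos p hp).ne'), sum_neg_distrib]
      ring
    rw [h0, mul_sum, Real.exp_sum]
    apply prod_le_prod
    · intro p hp
      have hpp := (mem_Pz.1 (mem_sdiff.1 hp).1).1
      have h2 : (2 : ℝ) ≤ p := by exact_mod_cast hpp.two_le
      split_ifs
      · have : 0 ≤ t / ((p : ℝ) - 1) := div_nonneg ht0 (by linarith)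
        linarith
      · exact (inv_pos.2 (one_sub_inv_pos hpp)).le
    · intro p hp
      have hp' := mem_sdiff.1 hp
      have hpp := (mem_Pz.1 hp'.1).1
      have h2 : (2 : ℝ) ≤ p := by exact_mod_cast hpp.two_le
      have hx := one_sub_inv_pos hpp
      rw [if_pos ⟨by
        by_contra hcon
        push Not at hcon
        exact hp'.2 (mem_Pz.2 ⟨hpp, hcon⟩), (mem_Pz.1 hp'.1).2⟩]
      have h3 : 1 / (p : ℝ) ≤ -Real.log (1 - 1 / (p : ℝ)) := by
        have := Real.log_le_sub_one_of_pos hx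
        linarith
      have h4 := Real.add_one_le_exp (2 * t * (-Real.log (1 - 1 / (p : ℝ))))
      have h5 : t / ((p : ℝ) - 1) ≤ 2 * t * (1 / (p : ℝ)) := by
        rw [show 2 * t * (1 / (p : ℝ)) = (2 * t) / p by ring,
          div_le_div_iff₀ (by linarith) (by linarith)]
        nlinarith
      have h6 : 2 * t * (1 / (p : ℝ)) ≤ 2 * t * (-Real.log (1 - 1 / (p : ℝ))) := by gcongr
      linarith
  rw [e1, e3]
  have hv : 0 ≤ (V v)⁻¹ := (inv_pos.2 (V_pos v)).le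
  have hq : 0 ≤ V Y / V N := (div_pos (V_pos Y) (V_pos N)).le
  gcongr

/-- the integers with at most `j` prime factors in `(v, Y]` -/
theorem card_om (t : ℝ) (ht0 : 0 < t) (ht1 : t ≤ 1) (v Y N j : ℕ) (hvY : v ≤ Y) (hYN : Y ≤ N)
    (hN : 2 ≤ N) :
    t ^ j * (((Icc 1 N).filter (fun m => om v Y m ≤ j)).card : ℝ) ≤ 7 * N / Real.log N *
      ((V v)⁻¹ * Real.exp (2 * t * (Real.log (V v) - Real.log (V Y))) * (V Y / V N)) := by
  have hl : 0 < Real.log N := Real.log_pos (by exact_mod_cast (by omega : 1 < N))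
  have h1 := ht_ineq (fun m => t ^ (om v Y m)) (fun n => by positivity)
    (fun d m _ _ => pow_le_pow_of_le_one ht0.le ht1 (om_le v Y d m)) N hN
  have h2 := (euler_t t ht0.le v Y N).trans (prod_bd t ht0.le v Y N hvY hYN)
  have h3 : t ^ j * (((Icc 1 N).filter (fun m => om v Y m ≤ j)).card : ℝ) ≤
      ∑ m ∈ Icc 1 N, t ^ (om v Y m) := by
    calc t ^ j * (((Icc 1 N).filter (fun m => om v Y m ≤ j)).card : ℝ) =
        ∑ m ∈ (Icc 1 N).filter (fun m => om v Y m ≤ j), t ^ j := by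
          rw [sum_const, nsmul_eq_mul]; ring
      _ ≤ ∑ m ∈ (Icc 1 N).filter (fun m => om v Y m ≤ j), t ^ (om v Y m) := by
          apply sum_le_sum
          intro m hm
          rw [mem_filter] at hm
          exact pow_le_pow_of_le_one ht0.le ht1 hm.2
      _ ≤ _ := sum_le_sum_of_subset_of_nonneg (filter_subset _ _) (fun m _ _ => by positivity)
  refine h3.trans (h1.trans ?_)
  gcongr

end Pool.Agent.H80.Pk
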