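import Pool.Agent.H80.Q.Eul

set_option autoImplicit false

/-! # The weighted greedy sieve for a family of sets (helper80) -/

namespace Pool.Agent.H80.Pk

open Finset Pool.Agent.H318R2.Cr TH415.AP

theorem multi {ι : Type*} (I : Finset ι) (A : ι → Finset ℤ) (S : Finset ℕ)
    (hS : ∀ p ∈ S, p.Prime) (t : ℝ) (ht : 0 < t) :
    ∃ b : ℕ → ℤ, ∀ i ∈ I, ∑ k ∈ A i, t ^ (hits S b k) ≤
      (I.card : ℝ) * (∏ p ∈ S, (1 - (1 - t) / (p : ℝ))) * ((A i).card : ℝ) := by
  set Vt := ∏ p ∈ S, (1 - (1 - t) / (p : ℝ)) with hVt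
  have hVt0 : 0 ≤ Vt := prod_nonneg fun p hp => by
    have h0 : (0 : ℝ) < p := by exact_mod_cast (hS p hp).pos
    have h1 : (1 : ℝ) ≤ p := by exact_mod_cast (hS p hp).one_le
    rw [sub_nonneg, div_le_one h0]
    linarith
  obtain ⟨b, hb⟩ := wsieve (I.sigma A) (fun x => x.2) (fun _ => t) (fun _ _ => ht.le) S hS
    (fun x => 1 / ((A x.1).card : ℝ)) (fun _ _ => by positivity)
  refine ⟨b, fun i hi => ?_⟩
  rw [sum_sigma, sum_sigma] at hb
  have h1 : ∑ i ∈ I, ∑ _k ∈ A i, 1 / ((A i).card : ℝ) * Vt ≤ (I.card : ℝ) * Vt := by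
    rw [← nsmul_eq_mul, ← sum_const]
    apply sum_le_sum
    intro i _
    rw [sum_const, nsmul_eq_mul]
    rcases Nat.eq_zero_or_pos (A i).card with h | h
    · rw [h]; simpa using hVt0
    · have : (0 : ℝ) < (A i).card := by exact_mod_cast h
      apply le_of_eq
      field_simp
  have h2 := hb.trans h1
  have h3 : ∑ k ∈ A i, 1 / ((A i).card : ℝ) * t ^ (hits S b k) ≤ (I.card : ℝ) * Vt := by
    refine le_trans ?_ h2
    exact single_le_sum (f := fun i => ∑ k ∈ A i, 1 / ((A i).card : ℝ) * t ^ (hits S b k))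
      (fun j _ => sum_nonneg fun k _ => by positivity) hi
  rw [← mul_sum] at h3
  rcases Nat.eq_zero_or_pos (A i).card with h | h
  · rw [card_eq_zero] at h
    rw [h]; simp
  · have h4 : (0 : ℝ) < (A i).card := by exact_mod_cast h
    rw [one_div, inv_mul_le_iff₀ h4] at h3
    linarith

/-- few points with at most `h` hits -/
theorem few (A : Finset ℤ) (S : Finset ℕ) (b : ℕ → ℤ) (t : ℝ) (ht : 0 < t) (ht1 : t ≤ 1)
    (h : ℕ) : t ^ h * ((A.filter (fun k => hits S b k ≤ h)).card : ℝ) ≤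
      ∑ k ∈ A, t ^ (hits S b k) := by
  calc t ^ h * ((A.filter (fun k => hits S b k ≤ h)).card : ℝ) =
      ∑ k ∈ A.filter (fun k => hits S b k ≤ h), t ^ h := by
        rw [sum_const, nsmul_eq_mul]; ring
    _ ≤ ∑ k ∈ A.filter (fun k => hits S b k ≤ h), t ^ (hits S b k) := by
        apply sum_le_sum
        intro k hk
        rw [mem_filter] at hk
        exact pow_le_pow_of_le_one ht.le ht1 hk.2
    _ ≤ _ := sum_le_sum_of_subset_of_nonneg (filter_subset _ _) (fun k _ _ => by positivity)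

end Pool.Agent.H80.Pk
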