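import Pool.Graph.R_seed8.H361R2.PA.CovD
import Pool.Agent.H80.Q.SCG1

set_option autoImplicit false
set_option maxHeartbeats 4000000

/-! # From classes modulo the small primes to translates without primes

If few elements of a set `A` of integers survive the classes `b p` for `p ≤ log X / 10`, then
some translate `n + A` with `n` in a given interval of length `X` contains no prime. -/

namespace Pool.Agent.H361R2.PA

open Finset Filter Pool.Agent.H256R2.SC Pool.Agent.H256R2.SC.LG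

open scoped Classical

/-- a nonzero integer has few large prime factors -/
theorem card_large_factors (m : ℕ) (hm : m ≠ 0) (t : ℝ) (ht : 1 ≤ t) :
    (((m.primeFactors.filter (fun p : ℕ => t < p)).card : ℕ) : ℝ) * Real.log t ≤ Real.log m := by
  set s := m.primeFactors.filter (fun p : ℕ => t < p) with hs
  have h1 : ∏ p ∈ s, p ∣ m := by
    refine dvd_trans ?_ (Nat.prod_primeFactors_dvd m)
    exact Finset.prod_dvd_prod_of_subset _ _ _ (filter_subset _ _)
  have h2 : ((∏ p ∈ s, p : ℕ) : ℝ) ≤ m := by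
    exact_mod_cast Nat.le_of_dvd (Nat.pos_of_ne_zero hm) h1
  have h3 : t ^ s.card ≤ ((∏ p ∈ s, p : ℕ) : ℝ) := by
    push_cast
    rw [← Finset.prod_const]
    apply Finset.prod_le_prod
    · intro i _; linarith
    · intro i hi
      exact (mem_filter.1 hi).2.le
  have h4 : Real.log (t ^ s.card) ≤ Real.log m :=
    Real.log_le_log (by positivity) (h3.trans h2)
  rw [Real.log_pow] at h4
  exact h4

theorem card_split (I : Finset ℤ) (P Q : ℤ → Prop) [DecidablePred P] [DecidablePred Q]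
    [DecidablePred (fun x => ¬ P x)] :
    ((I.filter (fun x => ¬ P x)).filter Q).card + ((I.filter P).filter Q).card =
      (I.filter Q).card := by
  have e1 : (I.filter (fun x => ¬ P x)).filter Q = (I.filter Q).filter (fun x => ¬ P x) := by
    ext x; simp only [mem_filter]; tauto
  have e2 : (I.filter P).filter Q = (I.filter Q).filter P := by
    ext x; simp only [mem_filter]; tauto
  rw [e1, e2, add_comm]
  exact card_filter_add_card_filter_not _

/-- numerical conditions -/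
structure Num (D : ℕ) (X : ℝ) : Prop where
  n1 : 1 ≤ X
  n2 : 100 ≤ Real.log X
  n3 : 4 * (primorial ⌊Real.log X / 10⌋₊ : ℝ) ≤ X ^ (1 / 2 : ℝ)
  n4 : X / 2 + primorial ⌊Real.log X / 10⌋₊ ≤ X
  n5 : (Real.log X) ^ 2 * (2 * X ^ (1 / 100 : ℝ) + 1) + 2 ≤ X ^ (1 / 10 : ℝ)
  n6 : Real.log X / 10 ≤ X ^ (1 / 100 : ℝ)

theorem num_ev (D : ℕ) : ∃ X₀ : ℝ, ∀ X : ℝ, X₀ ≤ X → Num D X := by
  have h1 : ∀ᶠ L : ℝ in atTop, L ≤ Real.exp (L / 1000) := by
    have e1 := Real.isLittleO_log_id_atTop.def (show (0:ℝ) < 1 / 1000 by norm_num)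
    filter_upwards [e1, eventually_ge_atTop (1:ℝ)] with L hL hL1
    rw [Real.norm_eq_abs, abs_of_nonneg (Real.log_nonneg hL1), Real.norm_eq_abs] at hL
    simp only [id] at hL
    rw [abs_of_nonneg (by linarith)] at hL
    calc L = Real.exp (Real.log L) := (Real.exp_log (by linarith)).symm
      _ ≤ Real.exp (L / 1000) := Real.exp_le_exp.mpr (by linarith)
  obtain ⟨L₀, hL₀⟩ := eventually_atTop.1 (h1.and (eventually_ge_atTop (100:ℝ)))
  refine ⟨Real.exp L₀, fun X hX => ?_⟩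
  have hX0 : 0 < X := lt_of_lt_of_le (Real.exp_pos _) hX
  set L := Real.log X with hL
  have hLL : L₀ ≤ L := by
    rw [hL, ← Real.log_exp L₀]
    exact Real.log_le_log (Real.exp_pos _) hX
  obtain ⟨f1, f2⟩ := hL₀ L hLL
  have hXL : X = Real.exp L := (Real.exp_log hX0).symm
  have hXr : ∀ s : ℝ, X ^ s = Real.exp (s * L) := by
    intro s
    rw [hXL, ← Real.exp_mul, mul_comm]
  have hP : (primorial ⌊L / 10⌋₊ : ℝ) ≤ Real.exp (L / 5) := by
    have e1 : (primorial ⌊L / 10⌋₊ : ℝ) ≤ (4:ℝ) ^ ⌊L / 10⌋₊ := by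
      exact_mod_cast primorial_le_four_pow _
    have e2 : (4:ℝ) ^ ⌊L / 10⌋₊ ≤ Real.exp (2 * (L / 10)) := by
      have e3 : (4:ℝ) ≤ Real.exp 2 := by
        have h := Real.exp_one_gt_d9
        have : Real.exp 2 = Real.exp 1 * Real.exp 1 := by rw [← Real.exp_add]; norm_num
        rw [this]
        nlinarith
      calc (4:ℝ) ^ ⌊L / 10⌋₊ ≤ (Real.exp 2) ^ ⌊L / 10⌋₊ :=
            pow_le_pow_left₀ (by norm_num) e3 _
        _ = Real.exp ((⌊L / 10⌋₊ : ℝ) * 2) := by rw [← Real.exp_nat_mul]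
        _ ≤ Real.exp (2 * (L / 10)) := by
          apply Real.exp_le_exp.mpr
          have := Nat.floor_le (show 0 ≤ L / 10 by linarith)
          linarith
    refine e1.trans (e2.trans (le_of_eq ?_))
    congr 1
    ring
  have g0 : L ≤ Real.exp (L / 1000) := f1
  have gp : ∀ t : ℝ, 1 ≤ t → t ≤ Real.exp t := fun t _ => by
    have := Real.add_one_le_exp t
    linarith
  refine ⟨?_, f2, ?_, ?_, ?_, ?_⟩
  · rw [hXL]; exact Real.one_le_exp (by linarith)
  · rw [hXr]
    calc 4 * (primorial ⌊L / 10⌋₊ : ℝ) ≤ Real.exp (3 * L / 10) * Real.exp (L / 5) := by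
          apply mul_le_mul _ hP (by positivity) (Real.exp_pos _).le
          have := gp (3 * L / 10) (by linarith)
          linarith
      _ = Real.exp (1 / 2 * L) := by rw [← Real.exp_add]; congr 1; ring
  · have e1 : Real.exp (L / 5) ≤ X / 2 := by
      rw [hXL]
      have e2 : Real.exp L = Real.exp (4 * L / 5) * Real.exp (L / 5) := by
        rw [← Real.exp_add]; congr 1; ring
      have e3 := gp (4 * L / 5) (by linarith)
      rw [e2]
      have := Real.exp_pos (L / 5)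
      nlinarith
    linarith
  · rw [hXr, hXr]
    have e1 : L ^ 2 ≤ Real.exp (L / 500) := by
      calc L ^ 2 ≤ (Real.exp (L / 1000)) ^ 2 := pow_le_pow_left₀ (by linarith) g0 2
        _ = Real.exp (L / 500) := by rw [← Real.exp_nat_mul]; congr 1; push_cast; ring
    have e2 : (1:ℝ) ≤ Real.exp (1 / 100 * L) := Real.one_le_exp (by linarith)
    have e3 : 2 * Real.exp (1 / 100 * L) + 1 ≤ 3 * Real.exp (1 / 100 * L) := by linarith
    have e4 : L ^ 2 * (2 * Real.exp (1 / 100 * L) + 1) ≤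
        Real.exp (L / 500) * (3 * Real.exp (1 / 100 * L)) :=
      mul_le_mul e1 e3 (by positivity) (Real.exp_pos _).le
    have e5 : Real.exp (L / 500) * (3 * Real.exp (1 / 100 * L)) =
        3 * Real.exp (12 * L / 1000) := by
      have : Real.exp (L / 500) * Real.exp (1 / 100 * L) = Real.exp (12 * L / 1000) := by
        rw [← Real.exp_add]; congr 1; ring
      rw [← this]; ring
    have e6 : Real.exp (1 / 10 * L) = Real.exp (88 * L / 1000) * Real.exp (12 * L / 1000) := by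
      rw [← Real.exp_add]; congr 1; ring
    have e7 := Real.add_one_le_exp (88 * L / 1000)
    have e8 : (1:ℝ) ≤ Real.exp (12 * L / 1000) := Real.one_le_exp (by linarith)
    have e9 : 5 * Real.exp (12 * L / 1000) ≤ Real.exp (88 * L / 1000) * Real.exp (12 * L / 1000) :=
      mul_le_mul_of_nonneg_right (by linarith) (by linarith)
    rw [e6]
    linarith
  · rw [hXr]
    have e1 : Real.exp (L / 1000) ≤ Real.exp (1 / 100 * L) :=
      Real.exp_le_exp.mpr (by linarith)
    linarith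

/-- the assembly -/
theorem assemble (D : ℕ) : ∃ c : ℝ, 0 < c ∧ ∃ X₀ : ℝ, ∀ X : ℝ, X₀ ≤ X →
    ∀ A : Finset ℤ, (A.card : ℝ) ≤ (Real.log X) ^ 2 →
    (∀ a ∈ A, |(a : ℝ)| ≤ Real.exp ((Real.log X) ^ D)) →
    ∀ b : ℕ → ℕ,
    (((A.filter (fun a => ∀ p : ℕ, p.Prime → (p : ℝ) ≤ Real.log X / 10 →
      ¬ (p : ℤ) ∣ (b p : ℤ) + a)).card : ℕ) : ℝ) ≤ c * Real.log X →
    ∀ z : ℤ, ∃ n : ℤ, (z : ℝ) + X / 4 < n ∧ (n : ℝ) ≤ z + X ∧
      (∀ p : ℕ, p.Prime → (p : ℝ) ≤ Real.log X / 10 → (p : ℤ) ∣ n - b p) ∧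
      ∀ a ∈ A, ¬ Prime (n + a) := by
  obtain ⟨c, hc, X₁, hcov⟩ := coveringD (D + 3) (by omega)
  obtain ⟨X₂, hnum⟩ := num_ev D
  refine ⟨min c 1, lt_min hc one_pos, max X₁ X₂, ?_⟩
  intro X hX A hA hAbd b hS z
  have hX1 : X₁ ≤ X := (le_max_left _ _).trans hX
  obtain ⟨n1, n2, n3, n4, n5, n6⟩ := hnum X ((le_max_right _ _).trans hX)
  set L := Real.log X with hL
  set y := L / 10 with hy
  have hy0 : 0 ≤ y := by rw [hy]; linarith
  set P : ℕ := primorial ⌊y⌋₊ with hPdef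
  have hPpos : 0 < P := primorial_pos _
  have hPr : (0 : ℝ) < P := by exact_mod_cast hPpos
  have hP1 : (1 : ℝ) ≤ P := by exact_mod_cast hPpos
  obtain ⟨b0, hb0, hb0'⟩ := exists_crt ⌊y⌋₊ b
  have hfloor : ∀ p : ℕ, p ≤ ⌊y⌋₊ ↔ (p : ℝ) ≤ y := fun p => Nat.le_floor_iff hy0
  have hLD : L ≤ L ^ (D + 3) := by
    calc L = L ^ 1 := (pow_one L).symm
      _ ≤ L ^ (D + 3) := pow_le_pow_right₀ (by linarith) (by omega)
  have hdvdP : ∀ p : ℕ, p.Prime → (p : ℝ) ≤ y → p ∣ P := fun p hp hpy =>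
    (hp.dvd_primorial_iff).2 ((hfloor p).2 hpy)
  have hndvdP : ∀ p : ℕ, p.Prime → L ^ (D + 3) < p → ¬ p ∣ P := by
    intro p hp hpX h
    have := (hfloor p).1 ((hp.dvd_primorial_iff).1 h)
    rw [hy] at this
    linarith
  have hinv : ∀ p : ℕ, ∃ i : ℤ, p.Prime → ¬ p ∣ P → (p : ℤ) ∣ (P : ℤ) * i - 1 := by
    intro p
    by_cases h : p.Prime ∧ ¬ p ∣ P
    · obtain ⟨i, hi⟩ := inv_exists h.1 h.2
      exact ⟨i, fun _ _ => hi⟩
    · exact ⟨0, fun h1 h2 => absurd ⟨h1, h2⟩ h⟩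
  choose ip hip using hinv
  set S : Finset ℤ := A.filter (fun a => ∀ p : ℕ, p.Prime → (p : ℝ) ≤ y →
      ¬ (p : ℤ) ∣ (b p : ℤ) + a) with hSdef
  set T : ℝ := X ^ (1 / 100 : ℝ) with hT
  have hT0 : 0 ≤ T := Real.rpow_nonneg (by linarith) _
  -- the exceptional primes
  set B : Finset ℕ := (S ×ˢ S).biUnion (fun x =>
    ((x.1 - x.2).natAbs.primeFactors).filter (fun p : ℕ => L ^ (D + 3) < p)) with hB
  have hcS1 : (S.card : ℝ) ≤ L := by
    refine hS.trans ?_
    have : min c 1 ≤ 1 := min_le_right _ _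
    nlinarith
  have hBcard : 2 * (B.card : ℝ) ≤ L ^ (D + 3) := by
    have hone : ∀ x ∈ S ×ˢ S, ((((x.1 - x.2).natAbs.primeFactors).filter
        (fun p : ℕ => L ^ (D + 3) < p)).card : ℝ) ≤ L ^ D + 1 := by
      intro x hx
      rw [mem_product] at hx
      by_cases h0 : (x.1 - x.2).natAbs = 0
      · rw [h0]
        simp only [Nat.primeFactors_zero, filter_empty, card_empty, Nat.cast_zero]
        positivity
      · have ht : (1:ℝ) ≤ L ^ (D + 3) := one_le_pow₀ (by linarith)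
        have h1 := card_large_factors _ h0 _ ht
        have h2 : 1 ≤ Real.log (L ^ (D + 3)) := by
          have h3 : Real.exp 1 ≤ L ^ (D + 3) := by
            have := Real.exp_one_lt_d9
            linarith
          calc (1:ℝ) = Real.log (Real.exp 1) := (Real.log_exp 1).symm
            _ ≤ _ := Real.log_le_log (Real.exp_pos 1) h3
        have h3 : Real.log ((x.1 - x.2).natAbs : ℝ) ≤ L ^ D + 1 := by
          have e1 := hAbd _ (mem_filter.1 hx.1).1
          have e2 := hAbd _ (mem_filter.1 hx.2).1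
          have e3 : (((x.1 - x.2).natAbs : ℕ) : ℝ) = |(x.1 : ℝ) - x.2| := by
            rw [Nat.cast_natAbs]
            push_cast
            rfl
          have e4 : (((x.1 - x.2).natAbs : ℕ) : ℝ) ≤ Real.exp (L ^ D + 1) := by
            rw [e3, Real.exp_add]
            have e5 := abs_sub (x.1 : ℝ) x.2
            have e6 := Real.exp_one_gt_d9
            have e7 := Real.exp_pos (L ^ D)
            nlinarith
          calc Real.log ((x.1 - x.2).natAbs : ℝ) ≤ Real.log (Real.exp (L ^ D + 1)) := by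
                apply Real.log_le_log _ e4
                exact_mod_cast Nat.pos_of_ne_zero h0
            _ = L ^ D + 1 := Real.log_exp _
        have h4 : (0:ℝ) ≤ ((((x.1 - x.2).natAbs.primeFactors).filter
          (fun p : ℕ => L ^ (D + 3) < p)).card : ℝ) := Nat.cast_nonneg _
        nlinarith
    have h1 : (B.card : ℝ) ≤ ∑ x ∈ S ×ˢ S, (L ^ D + 1) := by
      calc (B.card : ℝ) ≤ ((∑ x ∈ S ×ˢ S, (((x.1 - x.2).natAbs.primeFactors).filter
            (fun p : ℕ => L ^ (D + 3) < p)).card : ℕ) : ℝ) := by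
              exact_mod_cast card_biUnion_le
        _ = ∑ x ∈ S ×ˢ S, ((((x.1 - x.2).natAbs.primeFactors).filter
            (fun p : ℕ => L ^ (D + 3) < p)).card : ℝ) := by push_cast; rfl
        _ ≤ _ := sum_le_sum hone
    rw [sum_const, nsmul_eq_mul, card_product] at h1
    push_cast at h1
    have hcS0 : (0:ℝ) ≤ S.card := Nat.cast_nonneg _
    have hLD1 : (1:ℝ) ≤ L ^ D := one_le_pow₀ (by linarith)
    have h2 : (S.card : ℝ) * S.card * (L ^ D + 1) ≤ L * L * (2 * L ^ D) := by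
      apply mul_le_mul (mul_le_mul hcS1 hcS1 hcS0 (by linarith)) (by linarith) (by positivity)
        (by positivity)
    have h3 : 2 * (L * L * (2 * L ^ D)) ≤ L ^ (D + 3) := by
      have : L ^ (D + 3) = L * (L * L * L ^ D) := by ring
      rw [this]
      have h4 : 0 ≤ L * L * L ^ D := by positivity
      nlinarith
    linarith
  -- the set of admissible m
  set I : Finset ℤ := Ioc ⌊(z + X / 4) / P⌋ ⌊(z + X / 2) / P⌋ with hI
  set bad : Finset ℤ := I.filter (fun m : ℤ => ∃ a ∈ A, |(((b0 : ℤ) + (P : ℤ) * m + a : ℤ) : ℝ)| ≤ T) with hbad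
  set 𝒜 : Finset ℤ := I.filter (fun m : ℤ => ¬ ∃ a ∈ A, |(((b0 : ℤ) + (P : ℤ) * m + a : ℤ) : ℝ)| ≤ T) with h𝒜
  have hbadcard : (bad.card : ℝ) ≤ L ^ 2 * (2 * T + 1) := by
    have h1 : bad ⊆ A.biUnion (fun a => I.filter (fun m : ℤ => |(((b0 : ℤ) + (P : ℤ) * m + a : ℤ) : ℝ)| ≤ T)) := by
      intro m hm
      rw [hbad, mem_filter] at hm
      obtain ⟨h1, a, ha, h2⟩ := hm
      rw [mem_biUnion]
      exact ⟨a, ha, mem_filter.2 ⟨h1, h2⟩⟩
    have h2 : ∀ a ∈ A, ((I.filter (fun m : ℤ => |(((b0 : ℤ) + (P : ℤ) * m + a : ℤ) : ℝ)| ≤ T)).card : ℝ) ≤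
        2 * T + 1 := by
      intro a _
      have h3 : ((I.filter (fun m : ℤ => |(((b0 : ℤ) + (P : ℤ) * m + a : ℤ) : ℝ)| ≤ T)).card) ≤
          (Icc (-(⌊T⌋₊ : ℤ)) ⌊T⌋₊).card := by
        apply card_le_card_of_injOn (fun m => (b0 : ℤ) + P * m + a)
        · intro m hm
          have hm' := (mem_filter.1 (mem_coe.1 hm)).2
          rw [abs_le] at hm'
          rw [mem_coe, mem_Icc]
          constructor
          · have e2 : -((b0 : ℤ) + P * m + a) ≤ ⌊T⌋ := Int.le_floor.2 (by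
              rw [Int.cast_neg]; linarith [hm'.1])
            have e3 : ((⌊T⌋₊ : ℕ) : ℤ) = ⌊T⌋ := Int.natCast_floor_eq_floor hT0
            show -(⌊T⌋₊ : ℤ) ≤ (b0 : ℤ) + P * m + a
            linarith
          · have e2 : ((b0 : ℤ) + P * m + a) ≤ ⌊T⌋ := Int.le_floor.2 hm'.2
            have e3 : ((⌊T⌋₊ : ℕ) : ℤ) = ⌊T⌋ := Int.natCast_floor_eq_floor hT0
            show (b0 : ℤ) + P * m + a ≤ (⌊T⌋₊ : ℤ)
            linarith
        · intro m _ m' _ h
          have h5 : (P : ℤ) * m = P * m' := by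
            have : (b0 : ℤ) + P * m + a = (b0 : ℤ) + P * m' + a := h
            linarith
          have h6 : (P : ℤ) ≠ 0 := by exact_mod_cast hPpos.ne'
          exact mul_left_cancel₀ h6 h5
      have h4 : (Icc (-(⌊T⌋₊ : ℤ)) ⌊T⌋₊).card = 2 * ⌊T⌋₊ + 1 := by
        rw [Int.card_Icc]
        omega
      rw [h4] at h3
      have h5 : ((I.filter (fun m : ℤ => |(((b0 : ℤ) + (P : ℤ) * m + a : ℤ) : ℝ)| ≤ T)).card : ℝ) ≤
          2 * (⌊T⌋₊ : ℝ) + 1 := by exact_mod_cast h3
      have := Nat.floor_le hT0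
      linarith
    calc (bad.card : ℝ) ≤ ((∑ a ∈ A, (I.filter (fun m : ℤ => |(((b0 : ℤ) + (P : ℤ) * m + a : ℤ) : ℝ)| ≤ T)).card : ℕ) : ℝ) := by
          exact_mod_cast (card_le_card h1).trans card_biUnion_le
      _ = ∑ a ∈ A, ((I.filter (fun m : ℤ => |(((b0 : ℤ) + (P : ℤ) * m + a : ℤ) : ℝ)| ≤ T)).card : ℝ) := by
          push_cast; rfl
      _ ≤ ∑ a ∈ A, (2 * T + 1) := sum_le_sum h2
      _ = A.card * (2 * T + 1) := by rw [sum_const, nsmul_eq_mul]
      _ ≤ L ^ 2 * (2 * T + 1) := mul_le_mul_of_nonneg_right hA (by linarith)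
  have hlt : (z + X / 4) / P ≤ (z + X / 2) / P := by
    apply div_le_div_of_nonneg_right _ hPr.le
    linarith
  have hN : X ^ (1 / 2 : ℝ) ≤ X / (4 * P) := by
    rw [le_div_iff₀ (by positivity)]
    calc X ^ (1 / 2 : ℝ) * (4 * P) ≤ X ^ (1 / 2 : ℝ) * X ^ (1 / 2 : ℝ) := by gcongr
      _ = X := by
        rw [← Real.rpow_add (by linarith)]
        norm_num
  obtain ⟨m, hmA, hm⟩ := hcov X hX1 B hBcard S
    (by
      rw [Fintype.card_coe]
      refine hS.trans ?_
      have : min c 1 ≤ c := min_le_left _ _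
      nlinarith)
    (fun p x => -((b0 : ℤ) + x.1) * ip p) (by
      intro p hp hp1 _ hpB k l hkl hdvd
      have h1 := hip p hp (hndvdP p hp hp1)
      have h2 : (p : ℤ) ∣ (l.1 - k.1) := by
        have h3 := hdvd.mul_left (P : ℤ)
        have h4 := h1.mul_left (l.1 - k.1)
        have h5 := dvd_sub h3 h4
        refine h5.trans (dvd_of_eq ?_)
        ring
      apply hpB
      rw [hB, mem_biUnion]
      refine ⟨(l.1, k.1), mem_product.2 ⟨l.2, k.2⟩, ?_⟩
      rw [mem_filter, Nat.mem_primeFactors]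
      refine ⟨⟨hp, Int.natCast_dvd.1 h2, ?_⟩, hp1⟩
      intro h0
      apply hkl
      have : l.1 - k.1 = 0 := Int.natAbs_eq_zero.1 h0
      exact Subtype.ext (by linarith))
    𝒜 (X / (4 * P)) (L ^ 2 * (2 * T + 1) + 2) hN (by positivity) n5 (by
      intro q hq hq4 _ r
      have hq0 : 0 < q := Nat.pos_of_ne_zero hq.ne_zero
      have hq1 : (1 : ℝ) ≤ q := by exact_mod_cast hq0
      have h1 := count_Ioc ⌊(z + X / 4) / P⌋ ⌊(z + X / 2) / P⌋ (Int.floor_le_floor hlt) q hq0 r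
      have e1 := Int.floor_le ((z + X / 4) / P)
      have e2 := Int.lt_floor_add_one ((z + X / 4) / P)
      have e3 := Int.floor_le ((z + X / 2) / P)
      have e4 := Int.lt_floor_add_one ((z + X / 2) / P)
      have e5 : (z + X / 2) / P - (z + X / 4) / P = X / (4 * P) := by
        field_simp
        ring
      have h2 : |((⌊(z + X / 2) / P⌋ : ℝ) - ⌊(z + X / 4) / P⌋) / q - X / (4 * P) / q| ≤ 1 := by
        rw [← sub_div, abs_div, abs_of_pos (by linarith : (0 : ℝ) < q), div_le_one (by linarith)]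
        refine le_trans ?_ hq1
        rw [abs_le]
        constructor <;> linarith
      have h3 : |((((I.filter (fun x => (q : ℤ) ∣ x - r)).card : ℕ) : ℝ)) - X / (4 * P) / q| ≤ 2 := by
        calc _ = |((((Ioc ⌊(z + X / 4) / P⌋ ⌊(z + X / 2) / P⌋).filter
                (fun x => (q : ℤ) ∣ x - r)).card : ℕ) : ℝ) -
                ((⌊(z + X / 2) / P⌋ : ℝ) - ⌊(z + X / 4) / P⌋) / q +
                (((⌊(z + X / 2) / P⌋ : ℝ) - ⌊(z + X / 4) / P⌋) / q - X / (4 * P) / q)| := by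
              congr 1
              ring
          _ ≤ _ := abs_add_le _ _
          _ ≤ 2 := by linarith
      have h4 : (𝒜.filter (fun x => (q : ℤ) ∣ x - r)).card +
          (bad.filter (fun x => (q : ℤ) ∣ x - r)).card = (I.filter (fun x => (q : ℤ) ∣ x - r)).card := by
        exact card_split I _ _
      have h5 : ((bad.filter (fun x => (q : ℤ) ∣ x - r)).card : ℝ) ≤ L ^ 2 * (2 * T + 1) := by
        refine le_trans ?_ hbadcard
        exact_mod_cast card_le_card (filter_subset _ _)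
      have h6 : ((𝒜.filter (fun x => (q : ℤ) ∣ x - r)).card : ℝ) +
          ((bad.filter (fun x => (q : ℤ) ∣ x - r)).card : ℝ) =
          ((I.filter (fun x => (q : ℤ) ∣ x - r)).card : ℝ) := by exact_mod_cast h4
      have h7 : (0:ℝ) ≤ ((bad.filter (fun x => (q : ℤ) ∣ x - r)).card : ℝ) := Nat.cast_nonneg _
      rw [abs_le] at h3 ⊢
      constructor <;> linarith [h3.1, h3.2])
  rw [h𝒜, mem_filter, hI, mem_Ioc] at hmA
  obtain ⟨⟨hmA1, hmA2⟩, hmA3⟩ := hmA
  have hm1 : (z + X / 4) / P < m := by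
    have := Int.lt_floor_add_one ((z + X / 4) / P)
    have h2 : (⌊(z + X / 4) / P⌋ : ℝ) + 1 ≤ m := by exact_mod_cast hmA1
    linarith
  have hm2 : (m : ℝ) ≤ (z + X / 2) / P := by
    have := Int.floor_le ((z + X / 2) / P)
    have h2 : (m : ℝ) ≤ (⌊(z + X / 2) / P⌋ : ℝ) := by exact_mod_cast hmA2
    linarith
  rw [div_lt_iff₀ hPr] at hm1
  rw [le_div_iff₀ hPr] at hm2
  have hb0r : (0 : ℝ) ≤ b0 := by positivity
  have hb0P : (b0 : ℝ) ≤ P := by exact_mod_cast hb0.le
  have hsmall : ∀ p : ℕ, p.Prime → (p : ℝ) ≤ y → (p : ℤ) ∣ ((b0 : ℤ) + P * m) - b p := by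
    intro p hp hpy
    have h1 : (p : ℤ) ∣ (b0 : ℤ) - b p := by
      have h2 := hb0' p hp ((hfloor p).2 hpy)
      exact (Nat.modEq_iff_dvd.1 h2.symm)
    have h3 : (p : ℤ) ∣ (P : ℤ) := Int.natCast_dvd_natCast.2 (hdvdP p hp hpy)
    have h4 := dvd_add h1 (h3.mul_right m)
    refine h4.trans (dvd_of_eq ?_)
    ring
  refine ⟨(b0 : ℤ) + P * m, ?_, ?_, hsmall, ?_⟩
  · push_cast
    linarith
  · push_cast
    linarith
  · intro a ha hpr
    have hbig : T < |(((b0 : ℤ) + P * m + a : ℤ) : ℝ)| := by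
      by_contra hcon
      push Not at hcon
      exact hmA3 ⟨a, ha, hcon⟩
    have hcomp : ∀ p : ℕ, p.Prime → (p : ℝ) ≤ T → ¬ (p : ℤ) ∣ (b0 : ℤ) + P * m + a := by
      intro p hp hpT h
      have h1 := Int.natCast_dvd.1 h
      have h2 : (((b0 : ℤ) + P * m + a).natAbs).Prime := Int.prime_iff_natAbs_prime.1 hpr
      have h3 := (Nat.prime_dvd_prime_iff_eq hp h2).1 h1
      have h4 : (((((b0 : ℤ) + P * m + a).natAbs : ℕ)) : ℝ) = |(((b0 : ℤ) + P * m + a : ℤ) : ℝ)| := by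
        rw [Nat.cast_natAbs]
        push_cast
        rfl
      rw [← h4, ← h3] at hbig
      linarith
    by_cases hkS : a ∈ S
    · obtain ⟨p, hp, hp1, hp2, -, hp3⟩ := hm ⟨a, hkS⟩
      apply hcomp p hp hp2
      have h1 := hip p hp (hndvdP p hp hp1)
      have h3 := hp3.mul_left (P : ℤ)
      have h4 := h1.mul_left ((b0 : ℤ) + a)
      have h5 := dvd_sub h3 h4
      refine h5.trans (dvd_of_eq ?_)
      ring
    · have hkS' : ¬ ∀ p : ℕ, p.Prime → (p : ℝ) ≤ y → ¬ (p : ℤ) ∣ (b p : ℤ) + a := fun h =>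
        hkS (by
          rw [hSdef, mem_filter]
          exact ⟨ha, h⟩)
      push Not at hkS'
      obtain ⟨p, hp, hpy, hkp⟩ := hkS'
      apply hcomp p hp (by rw [hy] at hpy; linarith)
      have h1 := hsmall p hp hpy
      have h4 := dvd_add h1 hkp
      refine h4.trans (dvd_of_eq ?_)
      ring

end Pool.Agent.H361R2.PA
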